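import Pool.Agent.N235.DH.Fin
import Pool.Agent.R773.HN.Fin3
import Pool.Agent.Y419.HB.Dil

/-!
# Affine copies of Hamiltonian homeomorphisms
-/

set_option autoImplicit false

open Set Filter Topology Function
open Pool.Agent.Y453.HB
open Pool.Agent.Y309.HB
open Pool.Agent.N235.DH
open Pool.Agent.R773.HN (nm D Supp nm_nonneg nm_add nm_zero nm_smul nm_neg nm_sub_comm nm_cont nm_tri
  norm_le_nm D_closed D_compact nm_lt_one S_TRANS hT hR)

namespace Pool.Agent.J6H85.LR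

variable {n : ℕ}

/-- the affine map `x ↦ c + t x` -/
noncomputable def af (c : E n) (t : ℝ) (ht : 0 < t) : E n ≃ₜ E n :=
  Homeomorph.addLeft c * dil t ht

theorem af_apply (c : E n) (t : ℝ) (ht : 0 < t) (x : E n) : af c t ht x = c + t • x := rfl

theorem af_inv_apply (c : E n) (t : ℝ) (ht : 0 < t) (x : E n) :
    (af c t ht)⁻¹ x = t⁻¹ • (x - c) := by
  have h1 : af c t ht (t⁻¹ • (x - c)) = x := by
    rw [af_apply, smul_smul, mul_inv_cancel₀ ht.ne', one_smul, add_sub_cancel]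
  have h2 := inv_apply_self (af c t ht) (t⁻¹ • (x - c))
  rwa [h1] at h2

/-- the copy of `g` -/
noncomputable def cpy (c : E n) (t : ℝ) (ht : 0 < t) (g : E n ≃ₜ E n) : E n ≃ₜ E n :=
  af c t ht * g * (af c t ht)⁻¹

theorem cpy_apply (c : E n) (t : ℝ) (ht : 0 < t) (g : E n ≃ₜ E n) (x : E n) :
    cpy c t ht g (c + t • x) = c + t • g x := by
  unfold cpy
  rw [mul_apply, mul_apply, ← af_apply c t ht x, inv_apply_self, af_apply]

theorem cpy_apply' (c : E n) (t : ℝ) (ht : 0 < t) (g : E n ≃ₜ E n) (x : E n) :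
    cpy c t ht g x = c + t • g (t⁻¹ • (x - c)) := by
  unfold cpy
  rw [mul_apply, mul_apply, af_inv_apply, af_apply]

theorem cpy_mul (c : E n) (t : ℝ) (ht : 0 < t) (g h : E n ≃ₜ E n) :
    cpy c t ht (g * h) = cpy c t ht g * cpy c t ht h := by
  unfold cpy
  group

theorem cpy_one (c : E n) (t : ℝ) (ht : 0 < t) : cpy c t ht (1 : E n ≃ₜ E n) = 1 := by
  unfold cpy
  group

theorem cpy_inv (c : E n) (t : ℝ) (ht : 0 < t) (g : E n ≃ₜ E n) :
    cpy c t ht g⁻¹ = (cpy c t ht g)⁻¹ := by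
  unfold cpy
  group

/-- the open ball of the copy -/
def W (c : E n) (t : ℝ) : Set (E n) := {x | nm (x - c) < t}

theorem mem_W_iff {c : E n} {t : ℝ} (ht : 0 < t) {x : E n} : c + t • x ∈ W c t ↔ nm x < 1 := by
  unfold W
  rw [Set.mem_ofPred_eq, add_sub_cancel_left, nm_smul, abs_of_pos ht]
  constructor
  · intro h
    by_contra hc
    push Not at hc
    nlinarith
  · intro h
    nlinarith

theorem exists_af {c : E n} {t : ℝ} (ht : 0 < t) {x : E n} (hx : x ∈ W c t) :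
    ∃ y : E n, nm y < 1 ∧ x = c + t • y := by
  refine ⟨t⁻¹ • (x - c), ?_, ?_⟩
  · rw [← mem_W_iff (c := c) ht, smul_smul, mul_inv_cancel₀ ht.ne', one_smul, add_sub_cancel]
    exact hx
  · rw [smul_smul, mul_inv_cancel₀ ht.ne', one_smul, add_sub_cancel]

theorem HamBar_off {g : E n ≃ₜ E n} (hg : g ∈ HamBar n) {x : E n} (hx : ¬ nm x < 1) :
    g x = x := by
  obtain ⟨K, -, h1, h2⟩ := Pool.Agent.R773.HN.cpt_supp hg
  exact h2 x fun h => hx (nm_lt_one (h1 h))

theorem Q_of_nm {x : E n} (h : nm x < 1) : Q x < 1 := by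
  have h1 : nm x ^ 2 = Q x := Real.sq_sqrt (Q_nonneg x)
  rw [← h1]
  have := nm_nonneg x
  nlinarith

theorem cpy_supp {c : E n} {t : ℝ} (ht : 0 < t) {g : E n ≃ₜ E n} (hg : g ∈ HamBar n) :
    Supp (W c t) (cpy c t ht g) := by
  intro x hx
  rw [cpy_apply', HamBar_off hg, smul_smul, mul_inv_cancel₀ ht.ne', one_smul, add_sub_cancel]
  rw [← mem_W_iff (c := c) ht, smul_smul, mul_inv_cancel₀ ht.ne', one_smul, add_sub_cancel]
  exact hx

/-- translations and Hamiltonian vector fields -/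
theorem XH_trans (h : E n → ℝ) (c p : E n) : XH (fun x => h (x - c)) p = XH h (p - c) := by
  unfold XH
  rw [fderiv_comp_sub]

theorem cpy_ham {c : E n} {t : ℝ} (ht : 0 < t) (hct : nm c + t ≤ 1) {u : E n ≃ₜ E n}
    (hu : IsHam u) : IsHam (cpy c t ht u) := by
  obtain ⟨H, hH, ⟨K, hK, hKQ, hK0⟩, ψ, hψ0, hψ, hu⟩ := hu
  have hs0 : t ≠ 0 := ht.ne'
  have hcan : ∀ x : E n, c + t • (t⁻¹ • (x - c)) = x := fun x => by
    rw [smul_inv_smul₀ hs0, add_sub_cancel]
  refine ⟨fun τ x => t ^ 2 * H τ (t⁻¹ • (x - c)), ?_, ⟨(fun x => c + t • x) '' K, ?_, ?_, ?_⟩,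
    fun τ x => c + t • ψ τ (t⁻¹ • (x - c)), ?_, ?_, ?_⟩
  · have h1 : ContDiff ℝ ((⊤ : ℕ∞) : WithTop ℕ∞)
        (fun q : ℝ × E n => t ^ 2 * Function.uncurry H (q.1, t⁻¹ • (q.2 - c))) := by
      refine contDiff_const.mul (hH.comp ?_)
      exact contDiff_fst.prodMk ((contDiff_snd.sub contDiff_const).const_smul t⁻¹)
    exact h1
  · exact hK.image (continuous_const.add (continuous_const_smul t))
  · rintro _ ⟨x, hx, rfl⟩
    have h1 : nm x < 1 := nm_lt_one (hKQ hx)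
    show Q (c + t • x) < 1
    apply Q_of_nm
    refine (nm_add _ _).trans_lt ?_
    rw [nm_smul, abs_of_pos ht]
    nlinarith
  · intro τ x hx
    have h1 : t⁻¹ • (x - c) ∉ K := by
      intro h
      exact hx ⟨t⁻¹ • (x - c), h, hcan x⟩
    show t ^ 2 * H τ (t⁻¹ • (x - c)) = 0
    rw [hK0 τ _ h1, mul_zero]
  · intro x
    show c + t • ψ 0 (t⁻¹ • (x - c)) = x
    rw [hψ0, hcan]
  · intro τ x
    have hd : Differentiable ℝ (H τ) := by
      have h1 : ContDiff ℝ ((⊤ : ℕ∞) : WithTop ℕ∞) (fun y : E n => Function.uncurry H (τ, y)) :=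
        hH.comp (contDiff_const.prodMk contDiff_id)
      exact h1.differentiable (by simp)
    have h2 := ((hψ τ (t⁻¹ • (x - c))).const_smul t).const_add c
    have h3 : XH (fun y => t ^ 2 * H τ (t⁻¹ • (y - c))) (c + t • ψ τ (t⁻¹ • (x - c)))
        = t • XH (H τ) (ψ τ (t⁻¹ • (x - c))) := by
      have h4 := XH_trans (fun y : E n => t ^ 2 * H τ (t⁻¹ • y)) c
        (c + t • ψ τ (t⁻¹ • (x - c)))
      rw [h4, add_sub_cancel_left, Pool.Agent.Y419.HB.XH_scale (H τ) hd t hs0,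
        inv_smul_smul₀ hs0]
    show HasDerivAt (fun r : ℝ => c + t • ψ r (t⁻¹ • (x - c)))
      (XH (fun y => t ^ 2 * H τ (t⁻¹ • (y - c))) (c + t • ψ τ (t⁻¹ • (x - c)))) τ
    rw [h3]
    exact h2
  · intro x
    rw [cpy_apply', hu]

theorem uc_af (c : E n) (t : ℝ) (ht : 0 < t) :
    UConv (fun _ => (af c t ht : E n ≃ₜ E n)) (af c t ht) := by
  refine ⟨?_, ?_, ?_⟩
  · rw [Metric.tendstoUniformly_iff]
    intro ε hε
    exact Eventually.of_forall fun k x => by rwa [dist_self]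
  · have h1 : UniformContinuous fun x : E n => c + t • x :=
      uniformContinuous_const.add (uc_smul t)
    exact h1
  · have h1 : UniformContinuous fun x : E n => t⁻¹ • (x - c) :=
      (uc_smul t⁻¹).comp (uniformContinuous_id.sub uniformContinuous_const)
    have h2 : (((af c t ht)⁻¹ : E n ≃ₜ E n) : E n → E n) = fun x => t⁻¹ • (x - c) :=
      funext fun x => af_inv_apply c t ht x
    rw [h2]
    exact h1

/-- the copies are uniform limits of Hamiltonian diffeomorphisms supported in any `K` containing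
the ball -/
theorem cpy_HK {c : E n} {t : ℝ} (ht : 0 < t) (hct : nm c + t ≤ 1) {g : E n ≃ₜ E n}
    (hg : g ∈ HamBar n) {K : Set (E n)} (hK : W c t ⊆ K) : cpy c t ht g ∈ HK n K := by
  obtain ⟨L, hL, hL1, hL2, u, hu1, hu2, hu3⟩ := (mem_iff Pool.Agent.Y907.HB.mul
    Pool.Agent.Y510.HB.inv uc).1 hg
  refine ⟨fun x hx => cpy_supp ht hg x fun h => hx (hK h), fun k => cpy c t ht (u k),
    fun k x hx => ?_, fun k => cpy_ham ht hct (hu2 k), ?_⟩
  · exact cpy_supp ht (isHam_mem (hu2 k)) x fun h => hx (hK h)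
  · have h1 := uc_mul (uc_mul (uc_af c t ht) (uconv_of uc hL hL2 hu3)) (uc_inv (uc_af c t ht))
    exact h1.1

theorem cpy_mem {c : E n} {t : ℝ} (ht : 0 < t) (hct : nm c + t ≤ 1) {g : E n ≃ₜ E n}
    (hg : g ∈ HamBar n) : cpy c t ht g ∈ HamBar n := by
  obtain ⟨L, hL, hL1, hL2, u, hu1, hu2, hu3⟩ := (mem_iff Pool.Agent.Y907.HB.mul
    Pool.Agent.Y510.HB.inv uc).1 hg
  have hfix : ∀ w : E n ≃ₜ E n, (∀ x, x ∉ L → w x = x) → ∀ x,
      x ∉ (fun x : E n => c + t • x) '' L → cpy c t ht w x = x := by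
    intro w hw x hx
    rw [cpy_apply', hw, smul_smul, mul_inv_cancel₀ ht.ne', one_smul, add_sub_cancel]
    intro hc
    refine hx ⟨_, hc, ?_⟩
    show c + t • (t⁻¹ • (x - c)) = x
    rw [smul_smul, mul_inv_cancel₀ ht.ne', one_smul, add_sub_cancel]
  apply Subgroup.subset_closure
  refine ⟨(fun x : E n => c + t • x) '' L,
    hL.image (continuous_const.add (continuous_const_smul t)), ?_, hfix _ hL2,
    fun k => cpy c t ht (u k), fun k => hfix _ (hu1 k), fun k => cpy_ham ht hct (hu2 k), ?_⟩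
  · rintro _ ⟨x, hx, rfl⟩
    have h1 : nm x < 1 := nm_lt_one (hL1 hx)
    show Q (c + t • x) < 1
    apply Q_of_nm
    refine (nm_add _ _).trans_lt ?_
    rw [nm_smul, abs_of_pos ht]
    nlinarith
  · have h1 := uc_mul (uc_mul (uc_af c t ht) (uconv_of uc hL hL2 hu3)) (uc_inv (uc_af c t ht))
    exact h1.1

/-- copies of copies -/
theorem cpy_cpy (c d : E n) (t s : ℝ) (ht : 0 < t) (hs : 0 < s) (g : E n ≃ₜ E n) :
    cpy c t ht (cpy d s hs g) = cpy (c + t • d) (t * s) (mul_pos ht hs) g := by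
  have e : af c t ht * af d s hs = af (c + t • d) (t * s) (mul_pos ht hs) := by
    refine Homeomorph.ext fun x => ?_
    rw [mul_apply, af_apply, af_apply, af_apply, smul_add, smul_smul, add_assoc]
  unfold cpy
  rw [← e]
  group

end Pool.Agent.J6H85.LR
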