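import Pool.Agent.J6H85.LR.Defs
import Mathlib

/-!
# Products of conjugates and of commutators
-/

set_option autoImplicit false

open scoped commutatorElement

namespace Pool.Agent.J6H85.LR

variable {G : Type*} [Group G]

theorem Prods.mono {X Y : Set G} (h : X ⊆ Y) {k m : ℕ} (hkm : k ≤ m) : Prods X k ⊆ Prods Y m := by
  rintro g ⟨l, h1, h2, h3⟩
  exact ⟨l, h1.trans hkm, fun x hx => h (h2 x hx), h3⟩

theorem Prods.one {X : Set G} (k : ℕ) : (1 : G) ∈ Prods X k := ⟨[], by simp, by simp, rfl⟩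

theorem Prods.single {X : Set G} {g : G} (hg : g ∈ X) : g ∈ Prods X 1 :=
  ⟨[g], by simp, by simpa using hg, by simp⟩

theorem Prods.mul {X : Set G} {a b : G} {k m : ℕ} (ha : a ∈ Prods X k) (hb : b ∈ Prods X m) :
    a * b ∈ Prods X (k + m) := by
  obtain ⟨l, h1, h2, rfl⟩ := ha
  obtain ⟨l', h1', h2', rfl⟩ := hb
  refine ⟨l ++ l', by rw [List.length_append]; omega, fun x hx => ?_, List.prod_append⟩
  rcases List.mem_append.1 hx with h | h
  · exact h2 x h
  · exact h2' x h

theorem Prods.inv {X : Set G} (hX : ∀ x ∈ X, x⁻¹ ∈ X) {a : G} {k : ℕ} (ha : a ∈ Prods X k) :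
    a⁻¹ ∈ Prods X k := by
  obtain ⟨l, h1, h2, rfl⟩ := ha
  refine ⟨(l.map fun x => x⁻¹).reverse, by simpa using h1, fun x hx => ?_, ?_⟩
  · rw [List.mem_reverse, List.mem_map] at hx
    obtain ⟨y, hy, rfl⟩ := hx
    exact hX y (h2 y hy)
  · rw [List.prod_inv_reverse]

theorem Prods.map {H : Type*} [Group H] {X : Set G} {Y : Set H} (f : G →* H)
    (hf : ∀ x ∈ X, f x ∈ Y) {a : G} {k : ℕ} (ha : a ∈ Prods X k) : f a ∈ Prods Y k := by
  obtain ⟨l, h1, h2, rfl⟩ := ha
  refine ⟨l.map f, by simpa using h1, fun x hx => ?_, (map_list_prod f l).symm⟩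
  obtain ⟨y, hy, rfl⟩ := List.mem_map.1 hx
  exact hf y (h2 y hy)

theorem Prods.conj {X : Set G} (hX : ∀ g : G, ∀ x ∈ X, g * x * g⁻¹ ∈ X) {a : G} {k : ℕ}
    (ha : a ∈ Prods X k) (g : G) : g * a * g⁻¹ ∈ Prods X k :=
  Prods.map (MulAut.conj g).toMonoidHom (hX g) ha

theorem Prods.bind {X Y : Set G} {m : ℕ} (h : X ⊆ Prods Y m) {a : G} {k : ℕ}
    (ha : a ∈ Prods X k) : a ∈ Prods Y (k * m) := by
  obtain ⟨l, h1, h2, rfl⟩ := ha
  refine Prods.mono (subset_refl Y) (Nat.mul_le_mul_right m h1) ?_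
  clear h1
  induction l with
  | nil => exact Prods.one _
  | cons x l ih =>
    rw [List.prod_cons, List.length_cons, Nat.add_mul, one_mul, add_comm]
    exact Prods.mul (h (h2 x (by simp))) (ih fun y hy => h2 y (by simp [hy]))

theorem Prods.mem_subgroup {X : Set G} {N : Subgroup G} (h : X ⊆ N) {a : G} {k : ℕ}
    (ha : a ∈ Prods X k) : a ∈ N := by
  obtain ⟨l, -, h2, rfl⟩ := ha
  exact Subgroup.list_prod_mem N fun x hx => h (h2 x hx)

theorem Conj.conj {X : Set G} (g : G) {x : G} (hx : x ∈ Conj X) : g * x * g⁻¹ ∈ Conj X := by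
  obtain ⟨h, y, hy, rfl⟩ := hx
  exact ⟨g * h, y, hy, by group⟩

theorem Conj.self {X : Set G} {x : G} (hx : x ∈ X) : x ∈ Conj X := ⟨1, x, hx, by group⟩

theorem Conj.inv {X : Set G} (hX : ∀ x ∈ X, x⁻¹ ∈ X) {x : G} (hx : x ∈ Conj X) :
    x⁻¹ ∈ Conj X := by
  obtain ⟨h, y, hy, rfl⟩ := hx
  exact ⟨h, y⁻¹, hX y hy, by group⟩

theorem Conj.mono {X Y : Set G} (h : X ⊆ Y) : Conj X ⊆ Conj Y := by
  rintro _ ⟨g, x, hx, rfl⟩
  exact ⟨g, x, h hx, rfl⟩

/-- the elements of the normal closure -/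
theorem mem_normalClosure {X : Set G} {a : G} (ha : a ∈ Subgroup.normalClosure X) :
    ∃ k, a ∈ Prods (Conj (X ∪ {x | x⁻¹ ∈ X})) k := by
  have hX : ∀ x ∈ X ∪ {x | x⁻¹ ∈ X}, x⁻¹ ∈ X ∪ {x | x⁻¹ ∈ X} := by
    rintro x (hx | hx)
    · right
      show x⁻¹⁻¹ ∈ X
      rwa [inv_inv]
    · left
      exact hx
  let N : Subgroup G :=
    { carrier := {a | ∃ k, a ∈ Prods (Conj (X ∪ {x | x⁻¹ ∈ X})) k}
      one_mem' := ⟨0, Prods.one 0⟩
      mul_mem' := fun {a b} ⟨k, ha⟩ ⟨m, hb⟩ => ⟨k + m, Prods.mul ha hb⟩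
      inv_mem' := fun {a} ⟨k, ha⟩ => ⟨k, Prods.inv (fun _ => Conj.inv hX) ha⟩ }
  have hN : N.Normal := ⟨fun a ⟨k, ha⟩ g => ⟨k, Prods.conj (fun g _ => Conj.conj g) ha g⟩⟩
  have h1 : Subgroup.normalClosure X ≤ N :=
    Subgroup.normalClosure_le_normal fun x hx => ⟨1, Prods.single (Conj.self (Or.inl hx))⟩
  exact h1 ha

theorem Conj_sub_normalClosure {X : Set G} : Conj X ⊆ Subgroup.normalClosure X := by
  rintro _ ⟨g, x, hx, rfl⟩
  exact Subgroup.normalClosure_normal.conj_mem x (Subgroup.subset_normalClosure hx) g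

/-- a product of `m` conjugates of elements of a subgroup is a product of `m` commutators and of an
element of the subgroup -/
theorem split_comm (H : Subgroup G) (m : ℕ) {a : G} (ha : a ∈ Prods (Conj (H : Set G)) m) :
    ∃ (x y : ℕ → G) (b : G), b ∈ H ∧
      a = ((List.range m).map fun i => ⁅x i, y i⁆).prod * b := by
  obtain ⟨l, h1, h2, rfl⟩ := ha
  induction m generalizing l with
  | zero =>
    have : l = [] := List.length_eq_zero_iff.1 (by omega)
    subst this
    exact ⟨1, 1, 1, H.one_mem, by simp⟩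
  | succ m ih =>
    cases l with
    | nil =>
      refine ⟨1, 1, 1, H.one_mem, ?_⟩
      have : ∀ k : ℕ, ((List.range k).map fun i => ⁅(1 : ℕ → G) i, (1 : ℕ → G) i⁆).prod = 1 := by
        intro k
        apply List.prod_eq_one
        intro z hz
        obtain ⟨i, -, rfl⟩ := List.mem_map.1 hz
        simp
      rw [this]
      simp
    | cons a l =>
      obtain ⟨x, y, b, hb, he⟩ := ih l (by simpa using h1) fun z hz => h2 z (by simp [hz])
      obtain ⟨h, c, hc, rfl⟩ := h2 a (by simp)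
      refine ⟨fun i => if i = 0 then h else c * x (i - 1) * c⁻¹,
        fun i => if i = 0 then c else c * y (i - 1) * c⁻¹, c * b, H.mul_mem hc hb, ?_⟩
      rw [List.prod_cons, he, List.range_succ_eq_map, List.map_cons, List.prod_cons, List.map_map]
      have e1 : (List.range m).map ((fun i => ⁅(if i = 0 then h else c * x (i - 1) * c⁻¹),
          (if i = 0 then c else c * y (i - 1) * c⁻¹)⁆) ∘ Nat.succ) =
          ((List.range m).map fun i => ⁅x i, y i⁆).map (MulAut.conj c).toMonoidHom := by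
        rw [List.map_map]
        apply List.map_congr_left
        intro i _
        simp only [Function.comp, Nat.succ_ne_zero, if_false, Nat.succ_sub_one]
        show ⁅c * x i * c⁻¹, c * y i * c⁻¹⁆ = c * ⁅x i, y i⁆ * c⁻¹
        simp only [commutatorElement_def]
        group
      rw [e1, ← map_list_prod]
      show h * c * h⁻¹ * (((List.range m).map fun i => ⁅x i, y i⁆).prod * b) =
        ⁅(if (0 : ℕ) = 0 then h else _), (if (0 : ℕ) = 0 then c else _)⁆ *
          (c * ((List.range m).map fun i => ⁅x i, y i⁆).prod * c⁻¹) * (c * b)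
      rw [if_pos rfl, if_pos rfl, commutatorElement_def]
      group

theorem range_comm_mem (m : ℕ) (x y : ℕ → G) :
    ((List.range m).map fun i => ⁅x i, y i⁆).prod ∈ Prods (Comm G) m := by
  refine ⟨_, by simp, fun z hz => ?_, rfl⟩
  obtain ⟨i, -, rfl⟩ := List.mem_map.1 hz
  exact ⟨_, _, rfl⟩

theorem Comm.inv {x : G} (hx : x ∈ Comm G) : x⁻¹ ∈ Comm G := by
  obtain ⟨a, b, rfl⟩ := hx
  exact ⟨b, a, commutatorElement_inv a b⟩

theorem Comm.conj (g : G) {x : G} (hx : x ∈ Comm G) : g * x * g⁻¹ ∈ Comm G := by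
  obtain ⟨a, b, rfl⟩ := hx
  exact ⟨g * a * g⁻¹, g * b * g⁻¹, by simp only [commutatorElement_def]; group⟩

theorem Comm_sub : Comm G ⊆ commutator G := by
  rintro _ ⟨a, b, rfl⟩
  exact Subgroup.commutator_mem_commutator (Subgroup.mem_top a) (Subgroup.mem_top b)

/-- **The telescope.** Let `P` be a homomorphism from the group of sequences such that the
sequences `(β (b 0), β (b 1), …)` and `(1, α (b 0), α (b 1), …)` have conjugate images. If
every `α g` is congruent to some `β g'` modulo products of `m` commutators then the image of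
`(α g, 1, 1, …)` is a product of `m + 1` commutators. -/
theorem telescope (P : (ℕ → G) →* G) (κ : G) (α β : G →* G)
    (hP : ∀ b : ℕ → G, κ * P (fun j => β (b j)) * κ⁻¹ =
      P (fun j => Nat.casesOn j 1 fun j => α (b j))) (m : ℕ)
    (h : ∀ g : G, ∃ (x y : ℕ → G) (g' : G),
      α g = ((List.range m).map fun i => ⁅x i, y i⁆).prod * β g') (g : G) :
    P (Pi.mulSingle 0 (α g)) ∈ Prods (Comm G) (m + 1) := by
  choose x y nx h using h
  let gs : ℕ → G := fun j => Nat.rec g (fun _ z => nx z) j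
  have hgs : ∀ j, gs (j + 1) = nx (gs j) := fun j => rfl
  have e1 : P (fun j => α (gs j)) = P (fun j => ((List.range m).map fun i =>
      ⁅x (gs j) i, y (gs j) i⁆).prod) * P (fun j => β (gs (j + 1))) := by
    rw [← map_mul]
    congr 1
    funext j
    rw [Pi.mul_apply, hgs, ← h]
  have e2 : P (fun j => ((List.range m).map fun i => ⁅x (gs j) i, y (gs j) i⁆).prod) =
      ((List.range m).map fun i => ⁅P (fun j => x (gs j) i), P (fun j => y (gs j) i)⁆).prod := by
    have e3 : (fun j => ((List.range m).map fun i => ⁅x (gs j) i, y (gs j) i⁆).prod) =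
        ((List.range m).map fun i => ⁅(fun j => x (gs j) i), (fun j => y (gs j) i)⁆).prod := by
      funext j
      have e4 := map_list_prod (Pi.evalMonoidHom (fun _ : ℕ => G) j)
        ((List.range m).map fun i => ⁅(fun j => x (gs j) i), (fun j => y (gs j) i)⁆)
      rw [List.map_map] at e4
      exact e4.symm
    rw [e3, map_list_prod, List.map_map]
    congr 1
    apply List.map_congr_left
    intro i _
    simp only [Function.comp, map_commutatorElement]
  have e4 : P (fun j => α (gs j)) = P (Pi.mulSingle 0 (α g)) *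
      P (fun j => Nat.casesOn j 1 fun j => α (gs (j + 1))) := by
    rw [← map_mul]
    congr 1
    funext j
    cases j with
    | zero =>
      rw [Pi.mul_apply, Pi.mulSingle_eq_same]
      exact (mul_one _).symm
    | succ j =>
      rw [Pi.mul_apply, Pi.mulSingle_eq_of_ne (by omega), one_mul]
  have e5 := hP fun j => gs (j + 1)
  set X := P (Pi.mulSingle 0 (α g)) with hX
  set Z := P (fun j => β (gs (j + 1))) with hZ
  set C := P (fun j => ((List.range m).map fun i => ⁅x (gs j) i, y (gs j) i⁆).prod) with hC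
  have e6 : X = C * ⁅Z, κ⁆ := by
    have e7 : X * (κ * Z * κ⁻¹) = C * Z := by
      rw [e5, ← e4, e1]
    rw [commutatorElement_def, ← mul_assoc, ← mul_assoc, ← mul_assoc, ← e7]
    group
  rw [e6]
  refine Prods.mul ?_ (Prods.single ⟨_, _, rfl⟩)
  rw [e2]
  exact range_comm_mem _ _ _

end Pool.Agent.J6H85.LR
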