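import Mathlib

/-!
# Products of elements of a subset of a group
-/

set_option autoImplicit false

open scoped commutatorElement

namespace Pool.Agent.J6H85.LR

/-- the products of at most `k` elements of `X` -/
def Prods {G : Type*} [Group G] (X : Set G) (k : ℕ) : Set G :=
  {g | ∃ l : List G, l.length ≤ k ∧ (∀ x ∈ l, x ∈ X) ∧ l.prod = g}

/-- the conjugates of the elements of `X` -/
def Conj {G : Type*} [Group G] (X : Set G) : Set G := {g | ∃ h : G, ∃ x ∈ X, g = h * x * h⁻¹}

/-- the commutators -/
def Comm (G : Type*) [Group G] : Set G := {g | ∃ a b : G, g = ⁅a, b⁆}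

end Pool.Agent.J6H85.LR
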