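import Pool.Agent.Y453.HB.Stm
import Pool.Agent.J6H85.LR.Gen

/-!
# Bounded fragmentation: the definitions used in the proofs

The same as those in `Pub.lean`, for the subgroup `HamBar n` instead of the type `Ham n`.
-/

set_option autoImplicit false

open Pool.Agent.Y453.HB
open scoped commutatorElement

namespace Pool.Agent.J6H85.LR

/-! ### Hamiltonian homeomorphisms -/

/-- the Hamiltonian homeomorphisms of the concentric open ball of radius `t ≤ 1`: the conjugates
`x ↦ t g(x / t)` of the elements `g` of `HamBar n` by the dilation `x ↦ t x` -/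
def Sh (n : ℕ) (t : ℝ) : Set (HamBar n) :=
  {φ | ∃ g : HamBar n, ∀ x : E n, (φ : E n ≃ₜ E n) (t • x) = t • (g : E n ≃ₜ E n) x}

/-- **Bounded fragmentation**: for some radii `s < r` every Hamiltonian homeomorphism of the ball of
radius `r` is a product of at most `m` conjugates of Hamiltonian homeomorphisms of the ball of
radius `s` -/
def BoundedFragmentation (n : ℕ) : Prop := ∃ s r : ℝ, 0 < s ∧ s < r ∧ r ≤ 1 ∧
  ∃ m : ℕ, Sh n r ⊆ Prods (Conj (Sh n s)) m

/-- bounded fragmentation with one radius `r` and all radii `s` -/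
def BoundedAtAllScales (n : ℕ) : Prop := ∃ r : ℝ, 0 < r ∧ r ≤ 1 ∧ ∀ s : ℝ, 0 < s → s ≤ 1 →
  ∃ m : ℕ, Sh n r ⊆ Prods (Conj (Sh n s)) m

/-- the elements with small supports are products of commutators -/
def LocallyPerfect (n : ℕ) : Prop := ∃ r : ℝ, 0 < r ∧ r ≤ 1 ∧ Sh n r ⊆ commutator (HamBar n)

/-- the elements with small supports are products of at most `k` commutators -/
def LocallyBoundedlyPerfect (n : ℕ) : Prop := ∃ r : ℝ, 0 < r ∧ r ≤ 1 ∧
  ∃ k : ℕ, Sh n r ⊆ Prods (Comm (HamBar n)) k

/-- the elements with small supports are products of two commutators -/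
def LocallyTwoCommutators (n : ℕ) : Prop := ∃ r : ℝ, 0 < r ∧ r ≤ 1 ∧
  Sh n r ⊆ Prods (Comm (HamBar n)) 2

/-- the elements with small supports belong to every nontrivial normal subgroup -/
def InAllNormalSubgroups (n : ℕ) : Prop := ∃ r : ℝ, 0 < r ∧ r ≤ 1 ∧
  ∀ N : Subgroup (HamBar n), N.Normal → N ≠ ⊥ → Sh n r ⊆ N

/-- for every `g ≠ 1` the elements with small supports are products of a bounded number of
conjugates of `g` and `g⁻¹`; the size of the supports does not depend on `g` -/
def LocallyUniformlySimple (n : ℕ) : Prop := ∃ r : ℝ, 0 < r ∧ r ≤ 1 ∧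
  ∀ g : HamBar n, g ≠ 1 → ∃ k : ℕ, Sh n r ⊆ Prods (Conj {g, g⁻¹}) k

/-- the elements with small supports generate a simple normal subgroup -/
def SimpleClosure (n : ℕ) : Prop := ∃ r : ℝ, 0 < r ∧ r ≤ 1 ∧
  IsSimpleGroup (Subgroup.normalClosure (Sh n r))

/-- the elements with small supports belong to the normal closure of a countable set `A` of elements
which belong to the normal closure of `Sh n s` for all `s` -/
def LocallyCountablyGenerated (n : ℕ) : Prop := ∃ r : ℝ, 0 < r ∧ r ≤ 1 ∧
  ∃ A : Set (HamBar n), A.Countable ∧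
    (∀ s : ℝ, 0 < s → s ≤ 1 → A ⊆ Subgroup.normalClosure (Sh n s)) ∧
    Sh n r ⊆ Subgroup.normalClosure A

/-- for some radii `σ j → 0` and integers `f j` every element `φ` with small support is for every `j`
a product of at most `C(φ) f j` conjugates of elements of `Sh n (σ j)` -/
def CommonGrowth (n : ℕ) : Prop := ∃ r : ℝ, 0 < r ∧ r ≤ 1 ∧ ∃ (σ : ℕ → ℝ) (f : ℕ → ℕ),
  (∀ j, 0 < σ j) ∧ Filter.Tendsto σ Filter.atTop (nhds 0) ∧
  ∀ φ ∈ Sh n r, ∃ C : ℕ, ∀ j, φ ∈ Prods (Conj (Sh n (σ j))) (C * f j)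

/-- **Fragmentation**: for every radius `s` the group `HamBar n` is generated by the conjugates of
the Hamiltonian homeomorphisms of the ball of radius `s` -/
def Fragmentation (n : ℕ) : Prop :=
  ∀ s : ℝ, 0 < s → s ≤ 1 → Subgroup.normalClosure (Sh n s) = ⊤

end Pool.Agent.J6H85.LR
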