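import Pool.Agent.J6H85.LR.Sep

/-!
# The equivalences
-/

set_option autoImplicit false

open Set Filter Topology Function
open Pool.Agent.Y453.HB
open Pool.Agent.Y309.HB
open Pool.Agent.N235.DH
open scoped commutatorElement
open Pool.Agent.R773.HN (nm D Supp nm_nonneg nm_add nm_zero nm_smul nm_neg nm_sub_comm nm_cont nm_tri
  norm_le_nm D_closed D_compact nm_lt_one S_TRANS hT hR exists_vec Mono Mono_le Mono_norm Mono_ne
  Mid comm_ball mid_HamBar NormIn exists_moved displaced MS_le MS_ne)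

namespace Pool.Agent.J6H85.LR

variable {n : ℕ}

/-- iteration of the fragmentation -/
theorem frag_iter {r s : ℝ} (hs : 0 < s) (hsr : s < r) (hr1 : r ≤ 1) {m : ℕ}
    (h : Sh n r ⊆ Prods (Conj (Sh n s)) m) (s' : ℝ) (hs' : 0 < s') (hs'1 : s' ≤ 1) :
    ∃ m', Sh n r ⊆ Prods (Conj (Sh n s')) m' := by
  have hr : 0 < r := hs.trans hsr
  set q := s / r with hqdef
  have hq : 0 < q := by positivity
  have hq1 : q < 1 := by rw [hqdef, div_lt_one hr]; exact hsr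
  have hqr : q * r = s := by rw [hqdef]; field_simp
  have key : ∀ k : ℕ, Sh n r ⊆ Prods (Conj (Sh n (q ^ k * r))) (m ^ k) := by
    intro k
    induction k with
    | zero =>
      intro x hx
      rw [pow_zero, one_mul, pow_zero]
      exact Prods.single (Conj.self hx)
    | succ k ih =>
      have hk : 0 < q ^ k := by positivity
      have hk1 : q ^ k ≤ 1 := pow_le_one₀ hq.le hq1.le
      have h1 : Conj (Sh n (q ^ k * r)) ⊆ Prods (Conj (Sh n (q ^ (k + 1) * r))) m := by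
        rintro _ ⟨a, x, hx, rfl⟩
        obtain ⟨g, rfl⟩ := (mem_Sh (by positivity) (mul_le_one₀ hk1 hr.le hr1)).1 hx
        refine Prods.conj (fun g _ => Conj.conj g) ?_ a
        rw [← sc_sc (q ^ k) r hk hk1 hr hr1]
        refine Prods.map (sc (q ^ k) hk hk1) ?_ (h ((mem_Sh hr hr1).2 ⟨g, rfl⟩))
        rintro _ ⟨b, y, hy, rfl⟩
        obtain ⟨g', rfl⟩ := (mem_Sh hs (hsr.le.trans hr1)).1 hy
        refine ⟨sc (q ^ k) hk hk1 b, sc (q ^ k) hk hk1 (sc s hs (hsr.le.trans hr1) g'), ?_, ?_⟩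
        · refine (mem_Sh (by positivity) (mul_le_one₀ (pow_le_one₀ hq.le hq1.le) hr.le hr1)).2
            ⟨g', ?_⟩
          rw [sc_sc]
          have e : q ^ (k + 1) * r = q ^ k * s := by rw [← hqr, pow_succ]; ring
          simp only [e]
        · rw [map_mul, map_mul, map_inv]
      intro x hx
      rw [pow_succ]
      exact Prods.bind h1 (ih hx)
  obtain ⟨k, hk⟩ := exists_pow_lt_of_lt_one hs' hq1
  refine ⟨m ^ k, (key k).trans (Prods.mono (Conj.mono ?_) le_rfl)⟩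
  refine Sh_mono (by positivity) ?_ hs'1
  exact (mul_le_of_le_one_right (by positivity) hr1).trans hk.le

/-- commutators of elements with displaced support -/
theorem comm_four {g f h : HamBar n} {A : Set (E n)} (hd : Disjoint ((g : E n ≃ₜ E n) '' A) A)
    (hf : Supp A (f : E n ≃ₜ E n)) (hh : Supp A (h : E n ≃ₜ E n)) :
    ⁅f, h⁆ ∈ Prods (Conj {g, g⁻¹}) 4 := by
  have h1 : Supp ((g : E n ≃ₜ E n) '' A) ((g * f⁻¹ * g⁻¹ : HamBar n) : E n ≃ₜ E n) :=
    hf.inv.conj g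
  have h2 : (g * f⁻¹ * g⁻¹) * h = h * (g * f⁻¹ * g⁻¹) := Subtype.ext (h1.commute hd hh)
  have e : ⁅f, h⁆ = (f * g * f⁻¹) * (1 * g⁻¹ * 1⁻¹) *
      ((h * g * h⁻¹) * ((h * f) * g⁻¹ * (h * f)⁻¹)) := by
    have e1 : (f * g * f⁻¹) * (1 * g⁻¹ * 1⁻¹) * ((h * g * h⁻¹) * ((h * f) * g⁻¹ * (h * f)⁻¹)) =
        f * ((g * f⁻¹ * g⁻¹) * h) * (g * f⁻¹ * g⁻¹)⁻¹ * f⁻¹ * h⁻¹ := by group
    rw [e1, h2, commutatorElement_def]
    group
  rw [e]
  have m1 : f * g * f⁻¹ ∈ Conj {g, g⁻¹} := ⟨f, g, by simp, rfl⟩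
  have m2 : 1 * g⁻¹ * 1⁻¹ ∈ Conj {g, g⁻¹} := ⟨1, g⁻¹, by simp, rfl⟩
  have m3 : h * g * h⁻¹ ∈ Conj {g, g⁻¹} := ⟨h, g, by simp, rfl⟩
  have m4 : (h * f) * g⁻¹ * (h * f)⁻¹ ∈ Conj {g, g⁻¹} := ⟨h * f, g⁻¹, by simp, rfl⟩
  exact Prods.mul (Prods.mul (Prods.single m1) (Prods.single m2))
    (Prods.mul (Prods.single m3) (Prods.single m4))

theorem W_sub_D_self (c : E n) (t : ℝ) : W c t ⊆ D c t := fun x hx =>
  (show nm (x - c) < t from hx).le

theorem HamBar_moved {g : HamBar n} (hg : g ≠ 1) : ∃ p : E n, (g : E n ≃ₜ E n) p ≠ p ∧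
    nm p < 1 := by
  have h1 : (g : E n ≃ₜ E n) ≠ 1 := fun h => hg (Subtype.ext h)
  obtain ⟨p, hp⟩ := exists_moved h1
  refine ⟨p, hp, ?_⟩
  by_contra hc
  exact hp (HamBar_off g.2 hc)

/-- commutators of elements of a small copy -/
theorem small_comm4 {g : HamBar n} (hg : g ≠ 1) : ∃ (t : ℝ) (ht : 0 < t) (ht1 : t ≤ 1),
    ∀ a b : HamBar n, ⁅sc t ht ht1 a, sc t ht ht1 b⁆ ∈ Prods (Conj {g, g⁻¹}) 4 := by
  obtain ⟨p, hp, hp1⟩ := HamBar_moved hg
  obtain ⟨t, ht, htp, -, hd⟩ := displaced hp Filter.univ_mem hp1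
  have ht1 : t ≤ 1 := by have := nm_nonneg p; linarith
  obtain ⟨κ, hκ⟩ := exists_conj (n := n) (c := p) ht htp
  refine ⟨t, ht, ht1, fun a b => ?_⟩
  have hsupp : ∀ a : HamBar n, Supp (D p t) ((κ * sc t ht ht1 a * κ⁻¹ : HamBar n) : E n ≃ₜ E n) := by
    intro a
    rw [← hκ a]
    exact (cpy_supp ht a.2).mono (W_sub_D_self p t)
  have h1 := comm_four hd (hsupp a) (hsupp b)
  have h2 := Prods.conj (fun g _ => Conj.conj g) h1 κ⁻¹
  have e : κ⁻¹ * ⁅κ * sc t ht ht1 a * κ⁻¹, κ * sc t ht ht1 b * κ⁻¹⁆ * κ⁻¹⁻¹ =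
      ⁅sc t ht ht1 a, sc t ht ht1 b⁆ := by
    simp only [commutatorElement_def]
    group
  rwa [e] at h2

/-- the normal subgroups contain the commutators of elements of the copy of size `1 / 4` -/
theorem quarter (hn : 0 < n) {N : Subgroup (HamBar n)} (hN : N.Normal) (hne : N ≠ ⊥)
    (a b : HamBar n) :
    ⁅sc (1 / 4) (by norm_num) (by norm_num) a, sc (1 / 4) (by norm_num) (by norm_num) b⁆ ∈ N := by
  have hsupp : ∀ a : HamBar n, Supp (D (0 : E n) (1 / 4))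
      ((sc (1 / 4) (by norm_num) (by norm_num) a : HamBar n) : E n ≃ₜ E n) := by
    intro a
    rw [sc_coe]
    exact (cpy_supp (c := 0) (t := 1 / 4) (by norm_num) a.2).mono (W_sub_D_self 0 (1 / 4))
  have h1 := comm_ball hT hR hn (mid_HamBar (n := n)) (z := 0) (r := 1 / 4) (by norm_num)
    (by norm_num) (by rw [nm_zero]; norm_num)
    (sc (1 / 4) (by norm_num) (by norm_num) a : HamBar n).2
    (sc (1 / 4) (by norm_num) (by norm_num) b : HamBar n).2 (hsupp a) (hsupp b)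
  exact MS_le hN hne (Subgroup.mem_subgroupOf.2 h1)

theorem HamBar_nontrivial (hn : 0 < n) : ∃ g : HamBar n, g ≠ 1 ∧
    ∀ N : Subgroup (HamBar n), N.Normal → N ≠ ⊥ → g ∈ N := by
  obtain ⟨g, hg⟩ := (Subgroup.ne_bot_iff_exists_ne_one).1 (MS_ne hn (mid_HamBar (n := n)))
  exact ⟨g, fun h => hg (Subtype.ext h), fun N hN hne => MS_le hN hne g.2⟩

theorem sc_injective {t : ℝ} (ht : 0 < t) (ht1 : t ≤ 1) :
    Function.Injective (sc (n := n) t ht ht1) := by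
  rw [injective_iff_map_eq_one]
  intro g hg
  have h1 : cpy 0 t ht (g : E n ≃ₜ E n) = 1 := congrArg Subtype.val hg
  apply Subtype.ext
  refine Homeomorph.ext fun x => ?_
  have h2 := cpy_apply 0 t ht (g : E n ≃ₜ E n) x
  rw [h1, zero_add, zero_add] at h2
  have h3 : t • x = t • (g : E n ≃ₜ E n) x := h2
  exact (smul_right_injective (E n) ht.ne' h3).symm

theorem normalClosure_Sh_ne (hn : 0 < n) {t : ℝ} (ht : 0 < t) (ht1 : t ≤ 1) :
    Subgroup.normalClosure (Sh n t) ≠ ⊥ := by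
  intro h
  obtain ⟨g, hg, -⟩ := HamBar_nontrivial hn
  have h1 : sc t ht ht1 g ∈ Subgroup.normalClosure (Sh n t) :=
    Subgroup.subset_normalClosure ((mem_Sh ht ht1).2 ⟨g, rfl⟩)
  rw [h, Subgroup.mem_bot] at h1
  exact hg (sc_injective ht ht1 (h1.trans (map_one _).symm))

/-! ### the implications -/

theorem CB_CB' (h : BoundedFragmentation n) : BoundedAtAllScales n := by
  obtain ⟨s, r, hs, hsr, hr1, m, hm⟩ := h
  exact ⟨r, hs.trans hsr, hr1, fun s' hs' hs'1 => frag_iter hs hsr hr1 hm s' hs' hs'1⟩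

theorem CB_CP' (hn : 0 < n) (h : BoundedFragmentation n) : LocallyBoundedlyPerfect n := by
  obtain ⟨s, r, hs, hsr, hr1, m, hm⟩ := h
  obtain ⟨ρ, hρ, hρr, h1⟩ := frag_comm hn hs hsr hr1 hm
  exact ⟨ρ, hρ, hρr.trans hr1, m + 1, h1⟩

theorem CP'_CP (h : LocallyBoundedlyPerfect n) : LocallyPerfect n := by
  obtain ⟨r, hr, hr1, k, hk⟩ := h
  exact ⟨r, hr, hr1, fun x hx => Prods.mem_subgroup Comm_sub (hk hx)⟩

theorem CU_of (hB : BoundedAtAllScales n) (hP : LocallyBoundedlyPerfect n) : LocallyUniformlySimple n := by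
  obtain ⟨r, hr, hr1, hB⟩ := hB
  obtain ⟨ρ, hρ, hρ1, k, hk⟩ := hP
  refine ⟨r, hr, hr1, fun g hg => ?_⟩
  obtain ⟨t, ht, ht1, h4⟩ := small_comm4 hg
  have h1 : Conj (Sh n (t * ρ)) ⊆ Prods (Conj {g, g⁻¹}) (k * 4) := by
    rintro _ ⟨a, x, hx, rfl⟩
    refine Prods.conj (fun g _ => Conj.conj g) ?_ a
    obtain ⟨y, rfl⟩ := (mem_Sh (by positivity) (mul_le_one₀ ht1 hρ.le hρ1)).1 hx
    rw [← sc_sc t ρ ht ht1 hρ hρ1]
    have h2 : sc t ht ht1 (sc ρ hρ hρ1 y) ∈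
        Prods {z | ∃ a b : HamBar n, z = ⁅sc t ht ht1 a, sc t ht ht1 b⁆} k := by
      refine Prods.map (sc t ht ht1) ?_ (hk ((mem_Sh hρ hρ1).2 ⟨y, rfl⟩))
      rintro _ ⟨a, b, rfl⟩
      exact ⟨a, b, map_commutatorElement _ _ _⟩
    refine Prods.bind ?_ h2
    rintro _ ⟨a, b, rfl⟩
    exact h4 a b
  obtain ⟨m, hm⟩ := hB (t * ρ) (by positivity) (mul_le_one₀ ht1 hρ.le hρ1)
  exact ⟨m * (k * 4), fun x hx => Prods.bind h1 (hm hx)⟩

theorem Conj_pair_sub {N : Subgroup (HamBar n)} (hN : N.Normal) {g : HamBar n} (hg : g ∈ N) :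
    Conj {g, g⁻¹} ⊆ (N : Set (HamBar n)) := by
  rintro _ ⟨a, x, hx, rfl⟩
  rcases hx with rfl | rfl
  · exact hN.conj_mem _ hg a
  · exact hN.conj_mem _ (N.inv_mem hg) a

theorem CU_CS (h : LocallyUniformlySimple n) : InAllNormalSubgroups n := by
  obtain ⟨r, hr, hr1, hU⟩ := h
  refine ⟨r, hr, hr1, fun N hN hne => ?_⟩
  obtain ⟨⟨g, hg⟩, hg1⟩ := (Subgroup.ne_bot_iff_exists_ne_one).1 hne
  obtain ⟨k, hk⟩ := hU g fun h => hg1 (Subtype.ext h)
  exact fun x hx => Prods.mem_subgroup (Conj_pair_sub hN hg) (hk hx)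

theorem CP_CS (hn : 0 < n) (h : LocallyPerfect n) : InAllNormalSubgroups n := by
  obtain ⟨r, hr, hr1, hP⟩ := h
  refine ⟨1 / 4 * r, by positivity, by linarith, fun N hN hne x hx => ?_⟩
  obtain ⟨y, rfl⟩ := (mem_Sh (by positivity) (by linarith)).1 hx
  have e := sc_sc (n := n) (1 / 4) r (by norm_num) (by norm_num) hr hr1 y
  rw [← e]
  have h1 : commutator (HamBar n) ≤ N.comap (sc (1 / 4) (by norm_num) (by norm_num)) := by
    rw [commutator_def, Subgroup.commutator_le]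
    intro a _ b _
    rw [Subgroup.mem_comap, map_commutatorElement]
    exact quarter hn hN hne a b
  exact h1 (hP ((mem_Sh hr hr1).2 ⟨y, rfl⟩))

theorem CS_CC (hn : 0 < n) (h : InAllNormalSubgroups n) : LocallyCountablyGenerated n := by
  obtain ⟨r, hr, hr1, hS⟩ := h
  obtain ⟨g, hg1, hg⟩ := HamBar_nontrivial hn
  refine ⟨r, hr, hr1, {g}, Set.countable_singleton g, fun s hs hs1 => ?_, ?_⟩
  · rw [Set.singleton_subset_iff]
    exact hg _ Subgroup.normalClosure_normal (normalClosure_Sh_ne hn hs hs1)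
  · refine hS _ Subgroup.normalClosure_normal fun h => hg1 ?_
    have h1 : g ∈ Subgroup.normalClosure {g} := Subgroup.subset_normalClosure rfl
    rwa [h, Subgroup.mem_bot] at h1

theorem CC_CO (h : LocallyCountablyGenerated n) : CommonGrowth n := by
  obtain ⟨r, hr, hr1, A, hA, hAs, hr2⟩ := h
  obtain ⟨e, he⟩ : ∃ e : ℕ → HamBar n, A ∪ {1} = Set.range e :=
    (hA.union (Set.countable_singleton 1)).exists_eq_range ⟨1, Or.inr rfl⟩
  have hσ1 : ∀ j : ℕ, ((1 : ℝ) / 2) ^ j ≤ 1 := fun j => pow_le_one₀ (by norm_num) (by norm_num)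
  have hN : ∀ i j : ℕ, ∃ k, e i ∈ Prods (Conj (Sh n ((1 / 2) ^ j))) k := by
    intro i j
    have h1 : e i ∈ Subgroup.normalClosure (Sh n ((1 / 2) ^ j)) := by
      have h2 : e i ∈ A ∪ {1} := he ▸ Set.mem_range_self i
      rcases h2 with h2 | h2
      · exact hAs _ (by positivity) (hσ1 j) h2
      · rw [Set.mem_singleton_iff.1 h2]
        exact Subgroup.one_mem _
    obtain ⟨k, hk⟩ := mem_normalClosure h1
    refine ⟨k, Prods.mono (Conj.mono ?_) le_rfl hk⟩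
    rintro x (hx | hx)
    · exact hx
    · have h3 := Sh_inv (n := n) (by positivity) (hσ1 j) (show x⁻¹ ∈ Sh n ((1 / 2) ^ j) from hx)
      rwa [inv_inv] at h3
  choose N hN using hN
  let f : ℕ → ℕ := fun j => 1 + ∑ i ∈ Finset.range (j + 1), N i j
  refine ⟨r, hr, hr1, fun j => (1 / 2) ^ j, f, fun j => by positivity,
    tendsto_pow_atTop_nhds_zero_of_lt_one (by norm_num) (by norm_num), fun φ hφ => ?_⟩
  let M : Subgroup (HamBar n) :=
    { carrier := {φ | ∃ C : ℕ, ∀ j, φ ∈ Prods (Conj (Sh n ((1 / 2) ^ j))) (C * f j)}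
      one_mem' := ⟨0, fun j => Prods.one _⟩
      mul_mem' := fun {a b} ⟨C, hC⟩ ⟨C', hC'⟩ => ⟨C + C', fun j => by
        rw [Nat.add_mul]
        exact Prods.mul (hC j) (hC' j)⟩
      inv_mem' := fun {a} ⟨C, hC⟩ => ⟨C, fun j =>
        Prods.inv (ConjSh_inv (by positivity) (hσ1 j)) (hC j)⟩ }
  have hM : M.Normal := ⟨fun a ⟨C, hC⟩ g => ⟨C, fun j =>
    Prods.conj (fun g _ => Conj.conj g) (hC j) g⟩⟩
  have hAM : A ⊆ M := by
    intro a ha
    have h1 : a ∈ Set.range e := he ▸ Or.inl ha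
    obtain ⟨i, rfl⟩ := h1
    refine ⟨1 + ∑ j ∈ Finset.range i, N i j, fun j => Prods.mono (subset_refl _) ?_ (hN i j)⟩
    have hf1 : 1 ≤ f j := Nat.le_add_right _ _
    by_cases hij : i ≤ j
    · have h1 : N i j ≤ ∑ i ∈ Finset.range (j + 1), N i j :=
        Finset.single_le_sum (f := fun i => N i j) (fun _ _ => Nat.zero_le _)
          (Finset.mem_range.2 (by omega))
      have h2 : N i j ≤ f j := h1.trans (Nat.le_add_left _ _)
      exact h2.trans (Nat.le_mul_of_pos_left _ (by omega))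
    · have h1 : N i j ≤ ∑ j ∈ Finset.range i, N i j :=
        Finset.single_le_sum (f := fun j => N i j) (fun _ _ => Nat.zero_le _)
          (Finset.mem_range.2 (by omega))
      exact (h1.trans (Nat.le_add_left _ _)).trans (Nat.le_mul_of_pos_right _ hf1)
  exact (Subgroup.normalClosure_le_normal hAM) (hr2 hφ)

theorem CO_CB (hn : 0 < n) (h : CommonGrowth n) : BoundedFragmentation n := by
  obtain ⟨r, hr, hr1, σ, f, hσ, hσ0, H⟩ := h
  obtain ⟨s, r', hs, hsr, hr'1, m, hm⟩ := sep hn hr hr1 σ hσ hσ0 f H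
  exact ⟨s, r', hs, hsr, hr'1, m, hm⟩

theorem CP_CB (hn : 0 < n) (h : LocallyPerfect n) : BoundedFragmentation n := CO_CB hn (CC_CO (CS_CC hn (CP_CS hn h)))

end Pool.Agent.J6H85.LR
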