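import Pool.Agent.J6H85.LR.InfP

/-!
# Families of disjoint balls
-/

set_option autoImplicit false

open Set Filter Topology Function
open Pool.Agent.Y453.HB
open Pool.Agent.Y309.HB
open Pool.Agent.N235.DH
open Pool.Agent.R773.HN (nm D Supp nm_nonneg nm_add nm_zero nm_smul nm_neg nm_sub_comm nm_cont nm_tri
  norm_le_nm D_closed D_compact nm_lt_one S_TRANS hT hR)

namespace Pool.Agent.J6H85.LR

variable {n : ℕ}

/-- the elements of the copy at scale `t` -/
noncomputable def sc (t : ℝ) (ht : 0 < t) (ht1 : t ≤ 1) : HamBar n →* HamBar n where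
  toFun g := ⟨cpy 0 t ht g, cpy_mem ht (by rw [nm_zero]; linarith) g.2⟩
  map_one' := Subtype.ext (by simp only [Subgroup.coe_one, cpy_one])
  map_mul' g h := Subtype.ext (by simp only [Subgroup.coe_mul, cpy_mul])

theorem sc_coe (t : ℝ) (ht : 0 < t) (ht1 : t ≤ 1) (g : HamBar n) :
    ((sc t ht ht1 g : HamBar n) : E n ≃ₜ E n) = cpy 0 t ht g := rfl

theorem sc_sc (s t : ℝ) (hs : 0 < s) (hs1 : s ≤ 1) (ht : 0 < t) (ht1 : t ≤ 1) (g : HamBar n) :
    sc s hs hs1 (sc t ht ht1 g) = sc (s * t) (mul_pos hs ht) (mul_le_one₀ hs1 ht.le ht1) g := by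
  apply Subtype.ext
  rw [sc_coe, sc_coe, sc_coe, cpy_cpy]
  simp only [smul_zero, add_zero]

/-- a sequence of disjoint balls with radii tending to zero -/
structure Fam (n : ℕ) where
  c : ℕ → E n
  t : ℕ → ℝ
  pos : ∀ j, 0 < t j
  disj : ∀ i j, i ≠ j → Disjoint (W (c i) (t i)) (W (c j) (t j))
  R : ℝ
  hR : R < 1
  le : ∀ j, nm (c j) + t j ≤ R
  lim : Tendsto t atTop (𝓝 0)

theorem W_dist {c : E n} {t : ℝ} {x y : E n} (hx : x ∈ W c t) (hy : y ∈ W c t) :
    dist x y ≤ 2 * t := by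
  have h1 : nm (x - c) < t := hx
  have h2 : nm (y - c) < t := hy
  rw [dist_eq_norm]
  have h3 := norm_le_nm (x - y)
  have h4 := nm_tri x c y
  rw [nm_sub_comm c y] at h4
  linarith

theorem W_sub_D {c : E n} {t R : ℝ} (h : nm c + t ≤ R) : W c t ⊆ D 0 R := by
  intro x hx
  have h1 : nm (x - c) < t := hx
  show nm (x - 0) ≤ R
  rw [sub_zero]
  have h2 := nm_add (x - c) c
  rw [sub_add_cancel] at h2
  linarith

theorem D_sub_Q {R : ℝ} (hR : R < 1) : D (0 : E n) R ⊆ {p : E n | Q p < 1} := by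
  intro x hx
  have h1 : nm (x - 0) ≤ R := hx
  rw [sub_zero] at h1
  exact Q_of_nm (h1.trans_lt hR)

theorem Fam.exists_P (F : Fam n) (a : ℕ → HamBar n) : ∃ Y : HamBar n,
    IsProd (fun j => W (F.c j) (F.t j)) (fun j => cpy (F.c j) (F.t j) (F.pos j) (a j)) Y := by
  obtain ⟨Y, hY, h⟩ := exists_prod (K := D 0 F.R) F.disj (D_compact 0 F.R)
    (y := fun j => cpy (F.c j) (F.t j) (F.pos j) (a j))
    (fun j => cpy_HK (F.pos j) ((F.le j).trans F.hR.le) (a j).2 (W_sub_D (F.le j)))
    (fun j => cpy_supp (F.pos j) (a j).2) (d := fun j => 2 * F.t j)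
    (by simpa using F.lim.const_mul 2) (fun j x hx y hy => W_dist hx hy)
  exact ⟨⟨Y, HK_mem (D_compact 0 F.R) (D_sub_Q F.hR) hY⟩, h⟩

/-- the infinite product of copies -/
noncomputable def Fam.P (F : Fam n) : (ℕ → HamBar n) →* HamBar n where
  toFun a := (F.exists_P a).choose
  map_one' := by
    apply Subtype.ext
    refine IsProd.unique (F.exists_P 1).choose_spec ?_
    have h1 := IsProd.one (n := n) fun j => W (F.c j) (F.t j)
    have e : (fun j => cpy (F.c j) (F.t j) (F.pos j) ((1 : ℕ → HamBar n) j)) =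
        fun _ => (1 : E n ≃ₜ E n) := funext fun j => cpy_one _ _ _
    rw [e]
    exact h1
  map_mul' a b := by
    apply Subtype.ext
    refine IsProd.unique (F.exists_P (a * b)).choose_spec ?_
    have h1 := IsProd.mul (fun j => cpy_supp (c := F.c j) (F.pos j) (b j).2)
      (F.exists_P a).choose_spec (F.exists_P b).choose_spec
    have e : (fun j => cpy (F.c j) (F.t j) (F.pos j) ((a * b : ℕ → HamBar n) j)) =
        fun j => cpy (F.c j) (F.t j) (F.pos j) (a j) * cpy (F.c j) (F.t j) (F.pos j) (b j) :=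
      funext fun j => cpy_mul _ _ _ _ _
    rw [e]
    exact h1

theorem Fam.P_spec (F : Fam n) (a : ℕ → HamBar n) :
    IsProd (fun j => W (F.c j) (F.t j)) (fun j => cpy (F.c j) (F.t j) (F.pos j) (a j)) (F.P a) :=
  (F.exists_P a).choose_spec

theorem Fam.P_eq (F : Fam n) (a : ℕ → HamBar n) {Y : HamBar n}
    (h : IsProd (fun j => W (F.c j) (F.t j))
      (fun j => cpy (F.c j) (F.t j) (F.pos j) (a j)) Y) : F.P a = Y :=
  Subtype.ext ((F.P_spec a).unique h)

/-- one factor -/
theorem Fam.P_single (F : Fam n) (k : ℕ) (g : HamBar n) :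
    (F.P (Pi.mulSingle k g) : E n ≃ₜ E n) = cpy (F.c k) (F.t k) (F.pos k) g := by
  have hm : cpy (F.c k) (F.t k) (F.pos k) g ∈ HamBar n :=
    cpy_mem (F.pos k) ((F.le k).trans F.hR.le) g.2
  have : F.P (Pi.mulSingle k g) = ⟨_, hm⟩ := by
    refine F.P_eq _ ⟨fun j x hx => ?_, fun x hx => ?_⟩
    · rcases eq_or_ne j k with h | h
      · subst h
        show _ = cpy (F.c j) (F.t j) (F.pos j) (Pi.mulSingle (M := fun _ => HamBar n) j g j) x
        rw [Pi.mulSingle_eq_same]
      · show _ = cpy (F.c j) (F.t j) (F.pos j) (Pi.mulSingle (M := fun _ => HamBar n) k g j) x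
        rw [Pi.mulSingle_eq_of_ne h, Subgroup.coe_one, cpy_one]
        exact cpy_supp (F.pos k) g.2 x fun h' => h (V_unique F.disj hx h')
    · exact cpy_supp (F.pos k) g.2 x (hx k)
  rw [this]

/-- conjugation by a map which is a translation on each ball -/
theorem conj_trans {c w : ℕ → E n} {t : ℕ → ℝ} (ht : ∀ j, 0 < t j) {g : ℕ → (E n ≃ₜ E n)}
    (hg : ∀ j, g j ∈ HamBar n) {Y Y' κ : E n ≃ₜ E n}
    (h : IsProd (fun j => W (c j) (t j)) (fun j => cpy (c j) (t j) (ht j) (g j)) Y)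
    (h' : IsProd (fun j => W (c j + w j) (t j)) (fun j => cpy (c j + w j) (t j) (ht j) (g j)) Y')
    (hκ : ∀ j, ∀ x ∈ W (c j) (t j), κ x = x + w j) : κ * Y * κ⁻¹ = Y' := by
  rw [mul_inv_eq_iff_eq_mul]
  refine Homeomorph.ext fun x => ?_
  rw [mul_apply, mul_apply]
  by_cases hx : ∃ j, x ∈ W (c j) (t j)
  · obtain ⟨j, hj⟩ := hx
    have h1 : cpy (c j) (t j) (ht j) (g j) x ∈ W (c j) (t j) := (cpy_supp (ht j) (hg j)).maps hj
    have h2 : x + w j ∈ W (c j + w j) (t j) := by
      show nm (x + w j - (c j + w j)) < t j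
      rw [add_sub_add_right_eq_sub]
      exact hj
    rw [h.1 j x hj, hκ j _ h1, hκ j x hj, h'.1 j _ h2, cpy_apply', cpy_apply',
      add_sub_add_right_eq_sub]
    abel
  · push Not at hx
    rw [h.2 x hx, h'.2]
    intro j hj
    have h1 : κ x - w j ∈ W (c j) (t j) := by
      show nm (κ x - w j - c j) < t j
      rw [sub_sub, add_comm (w j)]
      exact hj
    have h2 := hκ j _ h1
    rw [sub_add_cancel] at h2
    have h3 := κ.injective h2
    rw [h3] at h1
    exact hx j h1

/-- one ball -/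
theorem conj_trans1 {c w : E n} {t : ℝ} (ht : 0 < t) {g : E n ≃ₜ E n} (hg : g ∈ HamBar n)
    {κ : E n ≃ₜ E n} (hκ : ∀ x ∈ W c t, κ x = x + w) :
    κ * cpy c t ht g * κ⁻¹ = cpy (c + w) t ht g := by
  rw [mul_inv_eq_iff_eq_mul]
  refine Homeomorph.ext fun x => ?_
  rw [mul_apply, mul_apply]
  by_cases hj : x ∈ W c t
  · have h1 : cpy c t ht g x ∈ W c t := (cpy_supp ht hg).maps hj
    have h2 : x + w ∈ W (c + w) t := by
      show nm (x + w - (c + w)) < t
      rw [add_sub_add_right_eq_sub]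
      exact hj
    rw [hκ _ h1, hκ x hj, cpy_apply', cpy_apply', add_sub_add_right_eq_sub]
    abel
  · rw [cpy_supp ht hg x hj, cpy_supp ht hg]
    intro hj'
    have h1 : κ x - w ∈ W c t := by
      show nm (κ x - w - c) < t
      rw [sub_sub, add_comm w]
      exact hj'
    have h2 := hκ _ h1
    rw [sub_add_cancel] at h2
    have h3 := κ.injective h2
    rw [h3] at h1
    exact hj h1

/-- the copies are conjugate to the concentric ones -/
theorem exists_conj {c : E n} {t : ℝ} (ht : 0 < t) (hct : nm c + t < 1) : ∃ κ : HamBar n,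
    ∀ g : HamBar n, (cpy c t ht g : E n ≃ₜ E n) =
      (κ * sc t ht (by have := nm_nonneg c; linarith) g * κ⁻¹ : HamBar n) := by
  obtain ⟨R, hR1, hR2⟩ := exists_between hct
  obtain ⟨κ, hκ, -, hκx⟩ := hT n 0 0 c t R ht (by rw [nm_zero]; linarith)
    (by rw [sub_zero, nm_zero]; have := nm_nonneg c; linarith)
    (by rw [zero_add, sub_zero]; exact hR1)
  refine ⟨⟨κ, isHam_mem hκ⟩, fun g => ?_⟩
  have h1 := conj_trans1 (c := 0) (w := c) ht g.2 (κ := κ) fun x hx =>
    hκx x (show nm (x - 0) ≤ t from (show nm (x - 0) < t from hx).le)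
  rw [zero_add] at h1
  exact h1.symm

/-- **Parallel translations.** -/
theorem par (hn : 0 < n) {v : E n} (hv : nm v = 1) {q : ℝ} (hq : 0 < q) (hq1 : q < 1)
    {α α' ε ε' : ℝ} (hε : 0 < ε) (hε' : ε < ε') (hα : α' < α) (h1 : q * (α + ε') ≤ α' - ε')
    (h2 : α + ε' < 1) : ∃ κ : HamBar n, ∀ (j : ℕ), ∀ x ∈ W ((q ^ j * α) • v) (q ^ j * ε),
      (κ : E n ≃ₜ E n) x = x + (q ^ j * (α' - α)) • v := by
  set b := (α' + α) / 2 with hb
  set β := (α - α') / 2 + ε' with hβ
  have hβ0 : 0 < β := by rw [hβ]; linarith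
  have hhi : b + β = α + ε' := by rw [hb, hβ]; ring
  have hlo : b - β = α' - ε' := by rw [hb, hβ]; ring
  have hhi0 : 0 < α + ε' := by
    by_contra hc
    push Not at hc
    nlinarith
  have hlo0 : 0 < α' - ε' := lt_of_lt_of_le (by positivity) h1
  have hb0 : 0 < b := by linarith
  have hp : ∀ j : ℕ, 0 < q ^ j := fun j => by positivity
  have hdisj : ∀ i j : ℕ, i < j →
      Disjoint (W ((q ^ i * b) • v) (q ^ i * β)) (W ((q ^ j * b) • v) (q ^ j * β)) := by
    intro i j hij
    rw [Set.disjoint_left]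
    intro x hx hx'
    have h3 : nm (x - (q ^ i * b) • v) < q ^ i * β := hx
    have h4 : nm (x - (q ^ j * b) • v) < q ^ j * β := hx'
    have h5 : nm ((q ^ j * b) • v) = q ^ j * b := by
      rw [nm_smul, hv, abs_of_pos (by positivity), mul_one]
    have h6 : nm ((q ^ i * b) • v) = q ^ i * b := by
      rw [nm_smul, hv, abs_of_pos (by positivity), mul_one]
    have h7 := nm_add (x - (q ^ j * b) • v) ((q ^ j * b) • v)
    rw [sub_add_cancel, h5] at h7
    have h8 := nm_tri ((q ^ i * b) • v) x 0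
    rw [sub_zero, sub_zero, h6, nm_sub_comm] at h8
    have h9 : q ^ j ≤ q ^ i * q := by
      rw [← pow_succ]
      exact pow_le_pow_of_le_one hq.le hq1.le hij
    have h10 : q ^ j * (α + ε') ≤ q ^ i * (α' - ε') := by
      calc q ^ j * (α + ε') ≤ q ^ i * q * (α + ε') := mul_le_mul_of_nonneg_right h9 hhi0.le
        _ = q ^ i * (q * (α + ε')) := by ring
        _ ≤ _ := mul_le_mul_of_nonneg_left h1 (hp i).le
    rw [← hhi, ← hlo] at h10
    nlinarith
  let F : Fam n :=
    { c := fun j => (q ^ j * b) • v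
      t := fun j => q ^ j * β
      pos := fun j => by positivity
      disj := fun i j hij => by
        rcases lt_or_gt_of_ne hij with h | h
        · exact hdisj i j h
        · exact (hdisj j i h).symm
      R := α + ε'
      hR := h2
      le := fun j => by
        rw [nm_smul, hv, abs_of_pos (by positivity), mul_one, ← mul_add, hhi]
        exact mul_le_of_le_one_left hhi0.le (pow_le_one₀ hq.le hq1.le)
      lim := by
        simpa using (tendsto_pow_atTop_nhds_zero_of_lt_one hq.le hq1).mul_const β }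
  -- the translation in the unit ball
  set p := ((α - b) / β) • v with hpdef
  set w := ((α' - α) / β) • v with hwdef
  have hab : α - b = β - ε' := by linarith
  have hab' : α' - b = -(β - ε') := by linarith
  have hβε : 0 < β - ε' := by rw [hβ]; linarith
  have hnp : nm p = (β - ε') / β := by
    rw [hpdef, nm_smul, hv, hab, abs_of_pos (by positivity), mul_one]
  have hpw : p + w = ((α' - b) / β) • v := by
    rw [hpdef, hwdef, ← add_smul]
    congr 1
    ring
  have hnpw : nm (p + w) = (β - ε') / β := by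
    rw [hpw, nm_smul, hv, hab', mul_one, neg_div, abs_neg, abs_of_pos (by positivity)]
  have hlt : (β - ε') / β + ε / β < 1 := by
    rw [← add_div, div_lt_one hβ0]
    linarith
  obtain ⟨R, hR1, hR2⟩ := exists_between hlt
  obtain ⟨k, hk, -, hkx⟩ := hT n 0 p w (ε / β) R (by positivity) (by rw [nm_zero]; linarith)
    (by rw [sub_zero, hnp]; exact hR1) (by rw [sub_zero, hnpw]; exact hR1)
  refine ⟨F.P fun _ => ⟨k, isHam_mem hk⟩, fun j x hx => ?_⟩
  have hx1 : nm (x - (q ^ j * α) • v) < q ^ j * ε := hx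
  have hqβ : 0 < q ^ j * β := by positivity
  -- the coordinate in the unit ball
  set y := (q ^ j * β)⁻¹ • (x - (q ^ j * b) • v) with hy
  have hxy : x = (q ^ j * b) • v + (q ^ j * β) • y := by
    rw [hy, smul_smul, mul_inv_cancel₀ hqβ.ne', one_smul, add_sub_cancel]
  have hyp : y - p = (q ^ j * β)⁻¹ • (x - (q ^ j * α) • v) := by
    have e : p = (q ^ j * β)⁻¹ • ((q ^ j * (α - b)) • v) := by
      rw [hpdef, smul_smul]
      congr 1
      field_simp
    rw [e, hy, ← smul_sub]
    congr 1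
    rw [sub_sub, ← add_smul]
    congr 2
    ring
  have hyp1 : nm (y - p) < ε / β := by
    rw [hyp, nm_smul, abs_of_pos (by positivity), inv_mul_lt_iff₀ hqβ]
    calc _ < q ^ j * ε := hx1
      _ = q ^ j * β * (ε / β) := by field_simp
  have hy1 : nm y < 1 := by
    have h3 := nm_add (y - p) p
    rw [sub_add_cancel, hnp] at h3
    linarith
  have hxW : x ∈ W (F.c j) (F.t j) := by
    rw [hxy]
    exact (mem_W_iff hqβ).2 hy1
  have h3 := (F.P_spec fun _ => (⟨k, isHam_mem hk⟩ : HamBar n)).1 j x hxW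
  have h4 : (F.P fun _ => (⟨k, isHam_mem hk⟩ : HamBar n) : E n ≃ₜ E n) x =
      (q ^ j * b) • v + (q ^ j * β) • k y := by
    rw [h3]
    have h5 : cpy (F.c j) (F.t j) (F.pos j) k x =
        cpy ((q ^ j * b) • v) (q ^ j * β) hqβ k ((q ^ j * b) • v + (q ^ j * β) • y) := by
      rw [← hxy]
    show cpy (F.c j) (F.t j) (F.pos j) k x = _
    rw [h5, cpy_apply]
  rw [h4, hkx y hyp1.le, smul_add, ← add_assoc, ← hxy, hwdef, smul_smul]
  congr 2
  field_simp

end Pool.Agent.J6H85.LR
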