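import Pool.Agent.J6H85.LR.Aff

/-!
# Infinite products of Hamiltonian homeomorphisms with disjoint supports
-/

set_option autoImplicit false

open Set Filter Topology Function
open Pool.Agent.Y453.HB
open Pool.Agent.Y309.HB
open Pool.Agent.N235.DH
open Pool.Agent.R773.HN (nm D Supp nm_nonneg nm_add nm_zero nm_smul nm_neg nm_sub_comm nm_cont nm_tri
  norm_le_nm D_closed D_compact nm_lt_one S_TRANS hT hR)

namespace Pool.Agent.J6H85.LR

variable {n : ℕ}

/-- `Y` is the product of the `y j`, which are supported in the disjoint sets `V j` -/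
def IsProd (V : ℕ → Set (E n)) (y : ℕ → (E n ≃ₜ E n)) (Y : E n ≃ₜ E n) : Prop :=
  (∀ j, ∀ x ∈ V j, Y x = y j x) ∧ ∀ x, (∀ j, x ∉ V j) → Y x = x

theorem IsProd.unique {V : ℕ → Set (E n)} {y : ℕ → (E n ≃ₜ E n)} {Y Y' : E n ≃ₜ E n}
    (h : IsProd V y Y) (h' : IsProd V y Y') : Y = Y' := by
  refine Homeomorph.ext fun x => ?_
  by_cases hx : ∃ j, x ∈ V j
  · obtain ⟨j, hj⟩ := hx
    rw [h.1 j x hj, h'.1 j x hj]
  · push Not at hx
    rw [h.2 x hx, h'.2 x hx]

theorem IsProd.mul {V : ℕ → Set (E n)} {y y' : ℕ → (E n ≃ₜ E n)} {Y Y' : E n ≃ₜ E n}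
    (hs : ∀ j, Supp (V j) (y' j)) (h : IsProd V y Y) (h' : IsProd V y' Y') :
    IsProd V (fun j => y j * y' j) (Y * Y') := by
  refine ⟨fun j x hx => ?_, fun x hx => ?_⟩
  · rw [mul_apply, mul_apply, h'.1 j x hx, h.1 j _ ((hs j).maps hx)]
  · rw [mul_apply, h'.2 x hx, h.2 x hx]

theorem IsProd.one (V : ℕ → Set (E n)) : IsProd V (fun _ => 1) (1 : E n ≃ₜ E n) :=
  ⟨fun _ _ _ => rfl, fun _ _ => rfl⟩

/-- the function of the infinite product -/
noncomputable def pf (V : ℕ → Set (E n)) (y : ℕ → (E n ≃ₜ E n)) (x : E n) : E n := by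
  classical
  exact if h : ∃ j, x ∈ V j then y h.choose x else x

/-- the partial products -/
noncomputable def pp (y : ℕ → (E n ≃ₜ E n)) : ℕ → (E n ≃ₜ E n)
  | 0 => 1
  | m + 1 => pp y m * y m

section

variable {V : ℕ → Set (E n)} (hV : ∀ i j, i ≠ j → Disjoint (V i) (V j))

include hV

theorem V_unique {x : E n} {i j : ℕ} (hi : x ∈ V i) (hj : x ∈ V j) : i = j := by
  by_contra h
  exact Set.disjoint_left.1 (hV i j h) hi hj

theorem pf_mem (y : ℕ → (E n ≃ₜ E n)) {j : ℕ} {x : E n} (hx : x ∈ V j) : pf V y x = y j x := by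
  have h : ∃ j, x ∈ V j := ⟨j, hx⟩
  unfold pf
  rw [dif_pos h, V_unique hV h.choose_spec hx]

omit hV in
theorem pf_not (y : ℕ → (E n ≃ₜ E n)) {x : E n} (hx : ∀ j, x ∉ V j) : pf V y x = x := by
  have h : ¬ ∃ j, x ∈ V j := fun ⟨j, hj⟩ => hx j hj
  unfold pf
  rw [dif_neg h]

theorem pp_apply {y : ℕ → (E n ≃ₜ E n)} (hs : ∀ j, Supp (V j) (y j)) (m : ℕ) :
    (∀ j, ∀ x ∈ V j, pp y m x = if j < m then y j x else x) ∧
      ∀ x, (∀ j, x ∉ V j) → pp y m x = x := by
  induction m with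
  | zero => exact ⟨fun j x _ => by simp [pp], fun x _ => rfl⟩
  | succ m ih =>
    refine ⟨fun j x hx => ?_, fun x hx => ?_⟩
    · show pp y m (y m x) = _
      rcases lt_trichotomy j m with h | h | h
      · have h1 : y m x = x := hs m x fun hm => h.ne (V_unique hV hx hm)
        rw [h1, ih.1 j x hx, if_pos h, if_pos (by omega)]
      · subst h
        rw [ih.1 j _ ((hs j).maps hx), if_neg (lt_irrefl _), if_pos (by omega)]
      · have h1 : y m x = x := hs m x fun hm => h.ne' (V_unique hV hx hm)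
        rw [h1, ih.1 j x hx, if_neg (by omega), if_neg (by omega)]
    · show pp y m (y m x) = _
      rw [hs m x (hx m), ih.2 x hx]

theorem pp_lim {y : ℕ → (E n ≃ₜ E n)} (hs : ∀ j, Supp (V j) (y j)) {d : ℕ → ℝ}
    (hd : Tendsto d atTop (𝓝 0)) (hdV : ∀ j, ∀ x ∈ V j, ∀ x' ∈ V j, dist x x' ≤ d j) :
    TendstoUniformly (fun (m : ℕ) (x : E n) => pp y m x) (pf V y) atTop := by
  rw [Metric.tendstoUniformly_iff]
  intro ε hε
  obtain ⟨M, hM⟩ := eventually_atTop.1 (hd.eventually (gt_mem_nhds hε))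
  filter_upwards [eventually_ge_atTop M] with m hm x
  by_cases hx : ∃ j, x ∈ V j
  · obtain ⟨j, hj⟩ := hx
    rw [pf_mem hV y hj, (pp_apply hV hs m).1 j x hj]
    by_cases hjm : j < m
    · rw [if_pos hjm, dist_self]
      exact hε
    · rw [if_neg hjm]
      exact (hdV j _ ((hs j).maps hj) _ hj).trans_lt (hM j (by omega))
  · push Not at hx
    rw [pf_not y hx, (pp_apply hV hs m).2 x hx, dist_self]
    exact hε

theorem pf_cont {y : ℕ → (E n ≃ₜ E n)} (hs : ∀ j, Supp (V j) (y j)) {d : ℕ → ℝ}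
    (hd : Tendsto d atTop (𝓝 0)) (hdV : ∀ j, ∀ x ∈ V j, ∀ x' ∈ V j, dist x x' ≤ d j) :
    Continuous (pf V y) :=
  (pp_lim hV hs hd hdV).continuous (Frequently.of_forall fun m => (pp y m).continuous)

theorem pf_pf {y y' : ℕ → (E n ≃ₜ E n)} (hs : ∀ j, Supp (V j) (y' j))
    (h : ∀ j x, y j (y' j x) = x) (x : E n) : pf V y (pf V y' x) = x := by
  by_cases hx : ∃ j, x ∈ V j
  · obtain ⟨j, hj⟩ := hx
    rw [pf_mem hV y' hj, pf_mem hV y ((hs j).maps hj), h]
  · push Not at hx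
    rw [pf_not y' hx, pf_not y hx]

/-- **Infinite products.** -/
theorem exists_prod {K : Set (E n)} (hK : IsCompact K) {y : ℕ → (E n ≃ₜ E n)}
    (hy : ∀ j, y j ∈ HK n K) (hs : ∀ j, Supp (V j) (y j)) {d : ℕ → ℝ}
    (hd : Tendsto d atTop (𝓝 0)) (hdV : ∀ j, ∀ x ∈ V j, ∀ x' ∈ V j, dist x x' ≤ d j) :
    ∃ Y ∈ HK n K, IsProd V y Y := by
  have hs' : ∀ j, Supp (V j) (y j)⁻¹ := fun j => (hs j).inv
  let Y : E n ≃ₜ E n :=
    { toFun := pf V y
      invFun := pf V fun j => (y j)⁻¹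
      left_inv := pf_pf hV hs fun j x => inv_apply_self (y j) x
      right_inv := pf_pf hV hs' fun j x => apply_inv_self (y j) x
      continuous_toFun := pf_cont hV hs hd hdV
      continuous_invFun := pf_cont hV hs' hd hdV }
  refine ⟨Y, ?_, fun j x hx => pf_mem hV y hx, fun x hx => pf_not y hx⟩
  have hpp : ∀ m, pp y m ∈ HK n K := by
    intro m
    induction m with
    | zero => exact HK_one K
    | succ m ih => exact HK_mul hK ih (hy m)
  refine HK_closed (w := pp y) hpp (fun x hx => ?_) (pp_lim hV hs hd hdV)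
  show pf V y x = x
  by_cases hx' : ∃ j, x ∈ V j
  · obtain ⟨j, hj⟩ := hx'
    rw [pf_mem hV y hj]
    exact (hy j).1 x hx
  · push Not at hx'
    exact pf_not y hx'

end

end Pool.Agent.J6H85.LR
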