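import Pool.Agent.Results.MP_68f289_gt.HomogeneousQuasimorphisms
import Pool.Agent.J6H85.LR.Gen

/-!
# Bounded fragmentation: definitions

`HamGroup n` is the group of the compactly supported Hamiltonian homeomorphisms of the open unit ball
of `ℝ^{2n}` (`Pool/Agent/Results/MP_68f289_gt/HomogeneousQuasimorphisms.lean`, the same as in the
frozen statement S13311), `φ.map` is the homeomorphism `φ` as a map. `Prods X k`, `Conj X`, `Comm G`:
`Pool/Agent/J6H85/LR/Gen.lean`.
-/

set_option autoImplicit false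

open Pool.Agent.Results.MP_68f289_gt.HomogeneousQuasimorphisms (E HamGroup)
open Pool.Agent.J6H85.LR (Prods Conj Comm)
open scoped commutatorElement

namespace Pool.Agent.J6H85.Frag

/-- `t x` -/
noncomputable def scale {n : ℕ} (t : ℝ) (x : E n) : E n := t • x

/-- the Hamiltonian homeomorphisms of the concentric open ball of radius `t ≤ 1`: the conjugates
`x ↦ t g(x / t)` of the elements `g` of `HamGroup n` by the dilation `x ↦ t x` -/
def Sh (n : ℕ) (t : ℝ) : Set (HamGroup n) :=
  {φ | ∃ g : HamGroup n, ∀ x : E n, φ.map (scale t x) = scale t (g.map x)}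

/-- **Bounded fragmentation**: for some radii `s < r` every Hamiltonian homeomorphism of the ball of
radius `r` is a product of at most `m` conjugates of Hamiltonian homeomorphisms of the ball of
radius `s` -/
def BoundedFragmentation (n : ℕ) : Prop := ∃ s r : ℝ, 0 < s ∧ s < r ∧ r ≤ 1 ∧
  ∃ m : ℕ, Sh n r ⊆ Prods (Conj (Sh n s)) m

/-- bounded fragmentation with one radius `r` and all radii `s` -/
def BoundedAtAllScales (n : ℕ) : Prop := ∃ r : ℝ, 0 < r ∧ r ≤ 1 ∧ ∀ s : ℝ, 0 < s → s ≤ 1 →
  ∃ m : ℕ, Sh n r ⊆ Prods (Conj (Sh n s)) m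

/-- the elements with small supports are products of commutators -/
def LocallyPerfect (n : ℕ) : Prop := ∃ r : ℝ, 0 < r ∧ r ≤ 1 ∧ Sh n r ⊆ commutator (HamGroup n)

/-- the elements with small supports are products of at most `k` commutators -/
def LocallyBoundedlyPerfect (n : ℕ) : Prop := ∃ r : ℝ, 0 < r ∧ r ≤ 1 ∧
  ∃ k : ℕ, Sh n r ⊆ Prods (Comm (HamGroup n)) k

/-- the elements with small supports are products of two commutators -/
def LocallyTwoCommutators (n : ℕ) : Prop := ∃ r : ℝ, 0 < r ∧ r ≤ 1 ∧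
  Sh n r ⊆ Prods (Comm (HamGroup n)) 2

/-- the elements with small supports belong to every nontrivial normal subgroup -/
def InAllNormalSubgroups (n : ℕ) : Prop := ∃ r : ℝ, 0 < r ∧ r ≤ 1 ∧
  ∀ N : Subgroup (HamGroup n), N.Normal → N ≠ ⊥ → Sh n r ⊆ N

/-- for every `g ≠ 1` the elements with small supports are products of a bounded number of
conjugates of `g` and `g⁻¹`; the size of the supports does not depend on `g` -/
def LocallyUniformlySimple (n : ℕ) : Prop := ∃ r : ℝ, 0 < r ∧ r ≤ 1 ∧
  ∀ g : HamGroup n, g ≠ 1 → ∃ k : ℕ, Sh n r ⊆ Prods (Conj {g, g⁻¹}) k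

/-- the elements with small supports generate a simple normal subgroup -/
def SimpleClosure (n : ℕ) : Prop := ∃ r : ℝ, 0 < r ∧ r ≤ 1 ∧
  IsSimpleGroup (Subgroup.normalClosure (Sh n r))

/-- the elements with small supports belong to the normal closure of a countable set `A` of elements
which belong to the normal closure of `Sh n s` for all `s` -/
def LocallyCountablyGenerated (n : ℕ) : Prop := ∃ r : ℝ, 0 < r ∧ r ≤ 1 ∧
  ∃ A : Set (HamGroup n), A.Countable ∧
    (∀ s : ℝ, 0 < s → s ≤ 1 → A ⊆ Subgroup.normalClosure (Sh n s)) ∧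
    Sh n r ⊆ Subgroup.normalClosure A

/-- for some radii `σ j → 0` and integers `f j` every element `φ` with small support is for every `j`
a product of at most `C(φ) f j` conjugates of elements of `Sh n (σ j)` -/
def CommonGrowth (n : ℕ) : Prop := ∃ r : ℝ, 0 < r ∧ r ≤ 1 ∧ ∃ (σ : ℕ → ℝ) (f : ℕ → ℕ),
  (∀ j, 0 < σ j) ∧ Filter.Tendsto σ Filter.atTop (nhds 0) ∧
  ∀ φ ∈ Sh n r, ∃ C : ℕ, ∀ j, φ ∈ Prods (Conj (Sh n (σ j))) (C * f j)

/-- **Fragmentation**: for every radius `s` the group `HamGroup n` is generated by the conjugates of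
the Hamiltonian homeomorphisms of the ball of radius `s` -/
def Fragmentation (n : ℕ) : Prop :=
  ∀ s : ℝ, 0 < s → s ≤ 1 → Subgroup.normalClosure (Sh n s) = ⊤

end Pool.Agent.J6H85.Frag
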