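import Pool.Agent.J6H85.LR.Par
import Pool.Agent.J6H85.LR.Pub

/-!
# The theorem
-/

set_option autoImplicit false

open Pool.Agent.Results.MP_68f289_gt.HomogeneousQuasimorphisms (E HamGroup closure_eq)

namespace Pool.Agent.J6H85.Frag

theorem main (n : ℕ) (hn : 0 < n) :
    List.TFAE [BoundedFragmentation n, BoundedAtAllScales n, LocallyPerfect n,
      LocallyTwoCommutators n, InAllNormalSubgroups n, LocallyUniformlySimple n, SimpleClosure n,
      LocallyCountablyGenerated n, CommonGrowth n] ∧
    (IsSimpleGroup (HamGroup n) ↔ BoundedFragmentation n ∧ Fragmentation n) ∧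
    (Fragmentation n → (IsSimpleGroup (HamGroup n) ↔
      ∃ A : Set (HamGroup n), A.Countable ∧ Subgroup.normalClosure A = ⊤)) :=
  Pool.Agent.J6H85.LR.Par.main_gen _ hn (closure_eq n)

end Pool.Agent.J6H85.Frag
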