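import Pool.Agent.J6H85.LR.Two

/-!
# The conditions for any subgroup
-/

set_option autoImplicit false

open Pool.Agent.Y453.HB
open scoped commutatorElement

namespace Pool.Agent.J6H85.LR

theorem main0 (n : ℕ) (hn : 0 < n) :
    List.TFAE [BoundedFragmentation n, BoundedAtAllScales n, LocallyPerfect n,
      LocallyTwoCommutators n, InAllNormalSubgroups n, LocallyUniformlySimple n, SimpleClosure n,
      LocallyCountablyGenerated n, CommonGrowth n] ∧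
    (IsSimpleGroup (HamBar n) ↔ BoundedFragmentation n ∧ Fragmentation n) ∧
    (Fragmentation n → (IsSimpleGroup (HamBar n) ↔
      ∃ A : Set (HamBar n), A.Countable ∧ Subgroup.normalClosure A = ⊤)) := by
  refine ⟨?_, simple_iff hn, simple_iff_countable hn⟩
  tfae_have 1 → 2 := CB_CB'
  tfae_have 2 → 1 := fun ⟨r, hr, hr1, h⟩ =>
    ⟨r / 2, r, by linarith, by linarith, hr1, h (r / 2) (by linarith) (by linarith)⟩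
  tfae_have 3 → 1 := CP_CB hn
  tfae_have 1 → 4 := fun h => CP'_C2 hn (CB_CP' hn h)
  tfae_have 4 → 3 := fun h => CP'_CP (C2_CP' h)
  tfae_have 1 → 6 := fun h => CU_of (CB_CB' h) (CB_CP' hn h)
  tfae_have 6 → 5 := CU_CS
  tfae_have 5 → 7 := CS_CF hn
  tfae_have 7 → 5 := CF_CS hn
  tfae_have 5 → 8 := CS_CC hn
  tfae_have 8 → 9 := CC_CO
  tfae_have 9 → 1 := CO_CB hn
  tfae_finish

end Pool.Agent.J6H85.LR

namespace Pool.Agent.J6H85.LR.Par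

variable {n : ℕ} (Γ : Subgroup (E n ≃ₜ E n))

def Sh (t : ℝ) : Set Γ :=
  {φ | ∃ g : Γ, ∀ x : E n, (φ : E n ≃ₜ E n) (t • x) = t • (g : E n ≃ₜ E n) x}

def BoundedFragmentation : Prop := ∃ s r : ℝ, 0 < s ∧ s < r ∧ r ≤ 1 ∧
  ∃ m : ℕ, Sh Γ r ⊆ Prods (Conj (Sh Γ s)) m

def BoundedAtAllScales : Prop := ∃ r : ℝ, 0 < r ∧ r ≤ 1 ∧ ∀ s : ℝ, 0 < s → s ≤ 1 →
  ∃ m : ℕ, Sh Γ r ⊆ Prods (Conj (Sh Γ s)) m

def LocallyPerfect : Prop := ∃ r : ℝ, 0 < r ∧ r ≤ 1 ∧ Sh Γ r ⊆ commutator (Γ)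

def LocallyBoundedlyPerfect : Prop := ∃ r : ℝ, 0 < r ∧ r ≤ 1 ∧
  ∃ k : ℕ, Sh Γ r ⊆ Prods (Comm (Γ)) k

def LocallyTwoCommutators : Prop := ∃ r : ℝ, 0 < r ∧ r ≤ 1 ∧
  Sh Γ r ⊆ Prods (Comm (Γ)) 2

def InAllNormalSubgroups : Prop := ∃ r : ℝ, 0 < r ∧ r ≤ 1 ∧
  ∀ N : Subgroup (Γ), N.Normal → N ≠ ⊥ → Sh Γ r ⊆ N

def LocallyUniformlySimple : Prop := ∃ r : ℝ, 0 < r ∧ r ≤ 1 ∧
  ∀ g : Γ, g ≠ 1 → ∃ k : ℕ, Sh Γ r ⊆ Prods (Conj {g, g⁻¹}) k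

def SimpleClosure : Prop := ∃ r : ℝ, 0 < r ∧ r ≤ 1 ∧
  IsSimpleGroup (Subgroup.normalClosure (Sh Γ r))

def LocallyCountablyGenerated : Prop := ∃ r : ℝ, 0 < r ∧ r ≤ 1 ∧
  ∃ A : Set (Γ), A.Countable ∧
    (∀ s : ℝ, 0 < s → s ≤ 1 → A ⊆ Subgroup.normalClosure (Sh Γ s)) ∧
    Sh Γ r ⊆ Subgroup.normalClosure A

def CommonGrowth : Prop := ∃ r : ℝ, 0 < r ∧ r ≤ 1 ∧ ∃ (σ : ℕ → ℝ) (f : ℕ → ℕ),
  (∀ j, 0 < σ j) ∧ Filter.Tendsto σ Filter.atTop (nhds 0) ∧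
  ∀ φ ∈ Sh Γ r, ∃ C : ℕ, ∀ j, φ ∈ Prods (Conj (Sh Γ (σ j))) (C * f j)

def Fragmentation : Prop :=
  ∀ s : ℝ, 0 < s → s ≤ 1 → Subgroup.normalClosure (Sh Γ s) = ⊤



theorem main_gen (hn : 0 < n) (h : Γ = HamBar n) :
    List.TFAE [BoundedFragmentation Γ, BoundedAtAllScales Γ, LocallyPerfect Γ,
      LocallyTwoCommutators Γ, InAllNormalSubgroups Γ, LocallyUniformlySimple Γ, SimpleClosure Γ,
      LocallyCountablyGenerated Γ, CommonGrowth Γ] ∧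
    (IsSimpleGroup Γ ↔ BoundedFragmentation Γ ∧ Fragmentation Γ) ∧
    (Fragmentation Γ → (IsSimpleGroup Γ ↔
      ∃ A : Set Γ, A.Countable ∧ Subgroup.normalClosure A = ⊤)) := by
  subst h
  exact main0 n hn

end Pool.Agent.J6H85.LR.Par
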