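import Pool.Agent.J6H85.LR.Tele

/-!
# Separation of scales
-/

set_option autoImplicit false

open Set Filter Topology Function
open Pool.Agent.Y453.HB
open Pool.Agent.Y309.HB
open Pool.Agent.N235.DH
open Pool.Agent.R773.HN (nm D Supp nm_nonneg nm_add nm_zero nm_smul nm_neg nm_sub_comm nm_cont nm_tri
  norm_le_nm D_closed D_compact nm_lt_one S_TRANS hT hR exists_vec)

namespace Pool.Agent.J6H85.LR

variable {n : ℕ}

theorem Sh_inv {t : ℝ} (ht : 0 < t) (ht1 : t ≤ 1) {x : HamBar n} (hx : x ∈ Sh n t) :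
    x⁻¹ ∈ Sh n t := by
  obtain ⟨g, rfl⟩ := (mem_Sh ht ht1).1 hx
  exact (mem_Sh ht ht1).2 ⟨g⁻¹, map_inv _ _⟩

theorem Sh_mono {s t : ℝ} (hs : 0 < s) (hst : s ≤ t) (ht1 : t ≤ 1) : Sh n s ⊆ Sh n t := by
  intro x hx
  have ht : 0 < t := hs.trans_le hst
  obtain ⟨g, rfl⟩ := (mem_Sh hs (hst.trans ht1)).1 hx
  have h1 : s / t ≤ 1 := (div_le_one ht).2 hst
  refine (mem_Sh ht ht1).2 ⟨sc (s / t) (by positivity) h1 g, ?_⟩
  rw [sc_sc]
  have e : t * (s / t) = s := by field_simp
  simp only [e]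

theorem ConjSh_inv {t : ℝ} (ht : 0 < t) (ht1 : t ≤ 1) : ∀ x ∈ Conj (Sh n t), x⁻¹ ∈ Conj (Sh n t) :=
  fun _ => Conj.inv fun _ => Sh_inv ht ht1

/-- products over balls contained in a small ball -/
theorem P_Sh (F : Fam n) (K : ℕ) {ρ R' : ℝ} (hρ : 0 < ρ) (hρ1 : ρ ≤ 1) (hR' : R' < 1)
    (h : ∀ j, nm (F.c (K + j)) + F.t (K + j) ≤ R' * ρ) (a : ℕ → HamBar n)
    (ha : ∀ i < K, a i = 1) : F.P a ∈ Sh n ρ := by
  have hWs : ∀ (c : E n) (t : ℝ) (x : E n), ρ⁻¹ • x ∈ W (ρ⁻¹ • c) (ρ⁻¹ * t) ↔ x ∈ W c t := by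
    intro c t x
    show nm (ρ⁻¹ • x - ρ⁻¹ • c) < ρ⁻¹ * t ↔ nm (x - c) < t
    rw [← smul_sub, nm_smul, abs_of_pos (by positivity)]
    exact mul_lt_mul_iff_right₀ (by positivity)
  let F' : Fam n :=
    { c := fun j => ρ⁻¹ • F.c (K + j)
      t := fun j => ρ⁻¹ * F.t (K + j)
      pos := fun j => mul_pos (by positivity) (F.pos _)
      disj := fun i j hij => by
        rw [Set.disjoint_left]
        intro x hx hx'
        have e : x = ρ⁻¹ • (ρ • x) := by
          rw [smul_smul, inv_mul_cancel₀ hρ.ne', one_smul]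
        rw [e, hWs] at hx hx'
        exact Set.disjoint_left.1 (F.disj (K + i) (K + j) (by omega)) hx hx'
      R := R'
      hR := hR'
      le := fun j => by
        rw [nm_smul, abs_of_pos (by positivity), ← mul_add, inv_mul_le_iff₀ hρ, mul_comm ρ]
        exact h j
      lim := by
        have h1 := (F.lim.comp (tendsto_add_atTop_nat K)).const_mul ρ⁻¹
        rw [mul_zero] at h1
        refine h1.congr fun j => ?_
        rw [Function.comp, add_comm j K] }
  refine (mem_Sh hρ hρ1).2 ⟨F'.P fun j => a (K + j), ?_⟩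
  apply Subtype.ext
  have h1 := (F.P_spec a).tail K (fun i hi => by
    show cpy _ _ _ ((a i : HamBar n) : E n ≃ₜ E n) = 1
    rw [ha i hi, Subgroup.coe_one, cpy_one])
  refine IsProd.unique ?_ h1
  have h2 := F'.P_spec fun j => a (K + j)
  rw [sc_coe]
  refine ⟨fun j x hx => ?_, fun x hx => ?_⟩
  · have h3 := h2.1 j (ρ⁻¹ • x) ((hWs _ _ _).2 hx)
    rw [cpy_apply', sub_zero, h3, zero_add]
    have h4 := congrArg (fun f : E n ≃ₜ E n => f x)
      (cpy_cpy 0 (F'.c j) ρ (F'.t j) hρ (F'.pos j) (a (K + j)))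
    rw [cpy_apply', sub_zero, zero_add, zero_add] at h4
    rw [h4]
    have e1 : ρ • F'.c j = F.c (K + j) := by
      show ρ • ρ⁻¹ • F.c (K + j) = _
      rw [smul_smul, mul_inv_cancel₀ hρ.ne', one_smul]
    have e2 : ρ * F'.t j = F.t (K + j) := by
      show ρ * (ρ⁻¹ * F.t (K + j)) = _
      rw [mul_inv_cancel_left₀ hρ.ne']
    simp only [e1, e2]
  · have h3 := h2.2 (ρ⁻¹ • x) fun j hj => hx j ((hWs _ _ _).1 hj)
    rw [cpy_apply', sub_zero, h3, zero_add, smul_smul, mul_inv_cancel₀ hρ.ne', one_smul]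

/-- **Separation of scales.** -/
theorem sep (hn : 0 < n) {r : ℝ} (hr : 0 < r) (hr1 : r ≤ 1) (σ : ℕ → ℝ) (hσ : ∀ j, 0 < σ j)
    (hσ0 : Tendsto σ atTop (𝓝 0)) (f : ℕ → ℕ)
    (H : ∀ φ ∈ Sh n r, ∃ C : ℕ, ∀ j, φ ∈ Prods (Conj (Sh n (σ j))) (C * f j)) :
    ∃ s r' : ℝ, 0 < s ∧ s < r' ∧ r' ≤ 1 ∧ ∃ m, Sh n r' ⊆ Prods (Conj (Sh n s)) m := by
  by_contra hneg
  push Not at hneg
  obtain ⟨v, hv⟩ := exists_vec hn one_pos
  -- the radii
  have hJ : ∀ ρ : ℝ, 0 < ρ → ∃ j, σ j < ρ / 16 := fun ρ hρ =>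
    (hσ0.eventually (gt_mem_nhds (by positivity : (0 : ℝ) < ρ / 16))).exists
  have hJ' : ∀ ρ : ℝ, ∃ j, 0 < ρ → σ j < ρ / 16 := by
    intro ρ
    by_cases hρ : 0 < ρ
    · obtain ⟨j, hj⟩ := hJ ρ hρ
      exact ⟨j, fun _ => hj⟩
    · exact ⟨0, fun h => absurd h hρ⟩
  choose Jf hJf using hJ'
  let ρ : ℕ → ℝ := fun k => Nat.rec r (fun _ z => σ (Jf z)) k
  have hρs : ∀ k, ρ (k + 1) = σ (Jf (ρ k)) := fun k => rfl
  have hρ0 : ∀ k, 0 < ρ k := by
    intro k
    cases k with
    | zero => exact hr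
    | succ k => exact hσ _
  have hρlt : ∀ k, ρ (k + 1) < ρ k / 16 := fun k => hJf _ (hρ0 k)
  have hρanti : ∀ i j, i ≤ j → ρ j ≤ ρ i := by
    intro i j hij
    induction j, hij using Nat.le_induction with
    | base => exact le_rfl
    | succ j _ ih =>
      have h1 := hρlt j
      have h2 := hρ0 j
      linarith
  have hρ1 : ∀ k, ρ k ≤ 1 := fun k => (hρanti 0 k (Nat.zero_le k)).trans hr1
  have hρlim : Tendsto ρ atTop (𝓝 0) := by
    have h1 : ∀ k, ρ k ≤ (1 / 16) ^ k := by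
      intro k
      induction k with
      | zero =>
        show r ≤ (1 / 16) ^ 0
        rw [pow_zero]
        exact hr1
      | succ k ih =>
        have := hρlt k
        rw [pow_succ]
        linarith
    exact squeeze_zero (fun k => (hρ0 k).le) h1
      (tendsto_pow_atTop_nhds_zero_of_lt_one (by norm_num) (by norm_num))
  have hnc : ∀ k, nm ((3 / 4 * ρ k) • v) = 3 / 4 * ρ k := by
    intro k
    have := hρ0 k
    rw [nm_smul, hv, mul_one, abs_of_pos (by positivity)]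
  have hdisj : ∀ i j : ℕ, i < j →
      Disjoint (W ((3 / 4 * ρ i) • v) (ρ i / 8)) (W ((3 / 4 * ρ j) • v) (ρ j / 8)) := by
    intro i j hij
    rw [Set.disjoint_left]
    intro x hx hx'
    have h3 : nm (x - (3 / 4 * ρ i) • v) < ρ i / 8 := hx
    have h4 : nm (x - (3 / 4 * ρ j) • v) < ρ j / 8 := hx'
    have h7 := nm_add (x - (3 / 4 * ρ j) • v) ((3 / 4 * ρ j) • v)
    rw [sub_add_cancel, hnc] at h7
    have h8 := nm_tri ((3 / 4 * ρ i) • v) x 0
    rw [sub_zero, sub_zero, hnc, nm_sub_comm] at h8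
    have h9 := hρanti (i + 1) j hij
    have h10 := hρlt i
    have h11 := hρ0 i
    linarith
  let F : Fam n :=
    { c := fun k => (3 / 4 * ρ k) • v
      t := fun k => ρ k / 8
      pos := fun k => by have := hρ0 k; positivity
      disj := fun i j hij => by
        rcases lt_or_gt_of_ne hij with h | h
        · exact hdisj i j h
        · exact (hdisj j i h).symm
      R := 7 / 8
      hR := by norm_num
      le := fun k => by
        rw [hnc]
        have := hρ1 k
        linarith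
      lim := by simpa using hρlim.div_const 8 }
  have hFt : ∀ k, F.t k = ρ k / 8 := fun k => rfl
  have hFle : ∀ k, nm (F.c k) + F.t k = 7 / 8 * ρ k := by
    intro k
    show nm ((3 / 4 * ρ k) • v) + ρ k / 8 = _
    rw [hnc]
    ring
  have hPr : ∀ a : ℕ → HamBar n, F.P a ∈ Sh n r := by
    intro a
    refine P_Sh F 0 hr hr1 (R' := 7 / 8) (by norm_num) (fun j => ?_) a (by simp)
    rw [zero_add, hFle]
    have := hρanti 0 j (Nat.zero_le j)
    have h0 : ρ 0 = r := rfl
    rw [h0] at this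
    linarith
  have hl : ∀ k, ∃ l : HamBar n, ∀ g : HamBar n, F.P (Pi.mulSingle k g) =
      l * sc (F.t k) (F.pos k) (by rw [hFt]; have := hρ1 k; have := hρ0 k; linarith) g * l⁻¹ := by
    intro k
    obtain ⟨l, hl⟩ := exists_conj (n := n) (c := F.c k) (F.pos k) (by
      rw [hFle]
      have := hρ1 k
      linarith)
    exact ⟨l, fun g => Subtype.ext (by rw [F.P_single, hl g])⟩
  -- the elements
  have hG : ∀ k S : ℕ, ∃ (g : HamBar n) (C : ℕ),
      F.P (Pi.mulSingle k g) ∉ Prods (Conj (Sh n (ρ (k + 1)))) ((k + S) * f (Jf (ρ k)) + 1) ∧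
      ∀ j, F.P (Pi.mulSingle k g) ∈ Prods (Conj (Sh n (σ j))) (C * f j) := by
    intro k S
    have ht1 : F.t k ≤ 1 := by rw [hFt]; have := hρ1 k; have := hρ0 k; linarith
    have h1 := hneg (ρ (k + 1)) (F.t k) (hρ0 (k + 1))
      (by rw [hFt]; have := hρlt k; have := hρ0 k; linarith) ht1
      ((k + S) * f (Jf (ρ k)) + 1)
    obtain ⟨φ, hφ, hφ'⟩ := Set.not_subset.1 h1
    obtain ⟨g, rfl⟩ := (mem_Sh (F.pos k) ht1).1 hφ
    obtain ⟨C, hC⟩ := H _ (hPr (Pi.mulSingle k g))
    refine ⟨g, C, fun hc => hφ' ?_, hC⟩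
    obtain ⟨l, hl⟩ := hl k
    rw [hl g] at hc
    have h2 := Prods.conj (fun g _ => Conj.conj g) hc l⁻¹
    have e : l⁻¹ * (l * sc (F.t k) (F.pos k) ht1 g * l⁻¹) * l⁻¹⁻¹ =
        sc (F.t k) (F.pos k) ht1 g := by group
    rwa [e] at h2
  choose G C hG1 hG2 using hG
  let S : ℕ → ℕ := fun k => Nat.rec 0 (fun k z => z + C k z) k
  have hS : ∀ k, S (k + 1) = S k + C k (S k) := fun k => rfl
  let g : ℕ → HamBar n := fun k => G k (S k)
  -- the heads
  have hhead : ∀ k j, F.P (fun i => if i < k then g i else 1) ∈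
      Prods (Conj (Sh n (σ j))) (S k * f j) := by
    intro k j
    induction k with
    | zero =>
      have : (fun i => if i < 0 then g i else 1) = (1 : ℕ → HamBar n) := by
        funext i
        simp
      rw [this, map_one]
      exact Prods.one _
    | succ k ih =>
      have e : (fun i => if i < k + 1 then g i else 1) =
          (fun i => if i < k then g i else 1) * Pi.mulSingle k (g k) := by
        funext i
        rw [Pi.mul_apply]
        rcases lt_trichotomy i k with h | h | h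
        · rw [if_pos (by omega), if_pos h, Pi.mulSingle_eq_of_ne h.ne, mul_one]
        · subst h
          rw [if_pos (by omega), if_neg (lt_irrefl _), Pi.mulSingle_eq_same, one_mul]
        · rw [if_neg (by omega), if_neg (by omega), Pi.mulSingle_eq_of_ne h.ne', mul_one]
      rw [e, map_mul, hS, Nat.add_mul]
      exact Prods.mul ih (hG2 k (S k) j)
  obtain ⟨C0, hC0⟩ := H _ (hPr g)
  set k := C0 with hk
  have htail : F.P (fun i => if i < k + 1 then 1 else g i) ∈ Sh n (ρ (k + 1)) := by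
    refine P_Sh F (k + 1) (hρ0 (k + 1)) (hρ1 (k + 1)) (R' := 7 / 8) (by norm_num) (fun j => ?_)
      (fun i => if i < k + 1 then 1 else g i) fun i hi => if_pos hi
    rw [hFle]
    have := hρanti (k + 1) (k + 1 + j) (by omega)
    linarith
  have hsplit : g = (fun i => if i < k then g i else 1) * Pi.mulSingle k (g k) *
      (fun i => if i < k + 1 then 1 else g i) := by
    funext i
    rw [Pi.mul_apply, Pi.mul_apply]
    rcases lt_trichotomy i k with h | h | h
    · rw [if_pos h, if_pos (by omega), Pi.mulSingle_eq_of_ne h.ne, mul_one, mul_one]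
    · subst h
      rw [if_neg (lt_irrefl _), if_pos (by omega), Pi.mulSingle_eq_same, one_mul, mul_one]
    · rw [if_neg (by omega), if_neg (by omega), Pi.mulSingle_eq_of_ne h.ne', one_mul, one_mul]
  have hPg : F.P (Pi.mulSingle k (g k)) = (F.P (fun i => if i < k then g i else 1))⁻¹ * F.P g *
      (F.P (fun i => if i < k + 1 then 1 else g i))⁻¹ := by
    have h1 := congrArg F.P hsplit
    rw [map_mul, map_mul] at h1
    rw [h1]
    group
  apply hG1 k (S k)
  show F.P (Pi.mulSingle k (g k)) ∈ _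
  rw [hPg]
  have hinv := ConjSh_inv (n := n) (hρ0 (k + 1)) (hρ1 (k + 1))
  have h1 := Prods.inv hinv (hhead k (Jf (ρ k)))
  have h2 := hC0 (Jf (ρ k))
  have h3 := Prods.inv hinv (Prods.single (Conj.self htail))
  have h4 := Prods.mul (Prods.mul h1 h2) h3
  refine Prods.mono (subset_refl _) (le_of_eq ?_) h4
  rw [← Nat.add_mul, add_comm (S k)]

end Pool.Agent.J6H85.LR
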