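import Pool.Agent.J6H85.LR.Fam
import Pool.Agent.J6H85.LR.Alg

/-!
# Bounded fragmentation implies bounded commutator length
-/

set_option autoImplicit false

open Set Filter Topology Function
open Pool.Agent.Y453.HB
open Pool.Agent.Y309.HB
open Pool.Agent.N235.DH
open Pool.Agent.R773.HN (nm D Supp nm_nonneg nm_add nm_zero nm_smul nm_neg nm_sub_comm nm_cont nm_tri
  norm_le_nm D_closed D_compact nm_lt_one S_TRANS hT hR exists_vec)

namespace Pool.Agent.J6H85.LR

variable {n : ℕ}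

theorem mem_Sh {t : ℝ} (ht : 0 < t) (ht1 : t ≤ 1) {φ : HamBar n} :
    φ ∈ Sh n t ↔ ∃ g, sc t ht ht1 g = φ := by
  constructor
  · rintro ⟨g, hg⟩
    refine ⟨g, Subtype.ext (Homeomorph.ext fun x => ?_)⟩
    rw [sc_coe, cpy_apply', ← hg, smul_smul, mul_inv_cancel₀ ht.ne', one_smul, zero_add, sub_zero]
  · rintro ⟨g, rfl⟩
    refine ⟨g, fun x => ?_⟩
    have := cpy_apply 0 t ht (g : E n ≃ₜ E n) x
    rwa [zero_add, zero_add] at this

theorem IsProd.shrink {V V' : ℕ → Set (E n)} {y : ℕ → (E n ≃ₜ E n)} {Y : E n ≃ₜ E n}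
    (h : IsProd V y Y) (hV : ∀ j, V' j ⊆ V j) (hs : ∀ j, Supp (V' j) (y j)) :
    IsProd V' y Y := by
  refine ⟨fun j x hx => h.1 j x (hV j hx), fun x hx => ?_⟩
  by_cases hx' : ∃ j, x ∈ V j
  · obtain ⟨j, hj⟩ := hx'
    rw [h.1 j x hj, hs j x (hx j)]
  · push Not at hx'
    exact h.2 x hx'

theorem IsProd.tail {V : ℕ → Set (E n)} {y : ℕ → (E n ≃ₜ E n)} {Y : E n ≃ₜ E n}
    (h : IsProd V y Y) (k : ℕ) (hk : ∀ i < k, y i = 1) :
    IsProd (fun j => V (k + j)) (fun j => y (k + j)) Y := by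
  refine ⟨fun j x hx => h.1 (k + j) x hx, fun x hx => ?_⟩
  by_cases hx' : ∃ j, x ∈ V j
  · obtain ⟨j, hj⟩ := hx'
    have h1 : j < k := by
      by_contra hc
      apply hx (j - k)
      have : k + (j - k) = j := by omega
      show x ∈ V (k + (j - k))
      rwa [this]
    rw [h.1 j x hj, hk j h1]
    rfl
  · push Not at hx'
    exact h.2 x hx'

/-- geometric sequences of balls -/
noncomputable def geoFam {v : E n} (hv : nm v = 1) {q : ℝ} (hq : 0 < q) (hq1 : q < 1) {b β : ℝ}
    (hb : 0 < b) (hβ : 0 < β) (h1 : q * (b + β) ≤ b - β) (h2 : b + β < 1) : Fam n where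
  c := fun j => (q ^ j * b) • v
  t := fun j => q ^ j * β
  pos := fun j => by positivity
  disj := by
    have hp : ∀ j : ℕ, 0 < q ^ j := fun j => by positivity
    have hdisj : ∀ i j : ℕ, i < j →
        Disjoint (W ((q ^ i * b) • v) (q ^ i * β)) (W ((q ^ j * b) • v) (q ^ j * β)) := by
      intro i j hij
      rw [Set.disjoint_left]
      intro x hx hx'
      have h3 : nm (x - (q ^ i * b) • v) < q ^ i * β := hx
      have h4 : nm (x - (q ^ j * b) • v) < q ^ j * β := hx'
      have h5 : nm ((q ^ j * b) • v) = q ^ j * b := by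
        rw [nm_smul, hv, abs_of_pos (by positivity), mul_one]
      have h6 : nm ((q ^ i * b) • v) = q ^ i * b := by
        rw [nm_smul, hv, abs_of_pos (by positivity), mul_one]
      have h7 := nm_add (x - (q ^ j * b) • v) ((q ^ j * b) • v)
      rw [sub_add_cancel, h5] at h7
      have h8 := nm_tri ((q ^ i * b) • v) x 0
      rw [sub_zero, sub_zero, h6, nm_sub_comm] at h8
      have h9 : q ^ j ≤ q ^ i * q := by
        rw [← pow_succ]
        exact pow_le_pow_of_le_one hq.le hq1.le hij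
      have h10 : q ^ j * (b + β) ≤ q ^ i * (b - β) := by
        calc q ^ j * (b + β) ≤ q ^ i * q * (b + β) :=
              mul_le_mul_of_nonneg_right h9 (by positivity)
          _ = q ^ i * (q * (b + β)) := by ring
          _ ≤ _ := mul_le_mul_of_nonneg_left h1 (hp i).le
      nlinarith
    intro i j hij
    rcases lt_or_gt_of_ne hij with h | h
    · exact hdisj i j h
    · exact (hdisj j i h).symm
  R := b + β
  hR := h2
  le := fun j => by
    rw [nm_smul, hv, abs_of_pos (by positivity), mul_one, ← mul_add]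
    exact mul_le_of_le_one_left (by positivity) (pow_le_one₀ hq.le hq1.le)
  lim := by
    simpa using (tendsto_pow_atTop_nhds_zero_of_lt_one hq.le hq1).mul_const β

theorem W_sub {c : E n} {t t' : ℝ} (h : t ≤ t') : W c t ⊆ W c t' := fun x hx => by
  have h1 : nm (x - c) < t := hx
  exact h1.trans_le h

/-- the geometric input for the telescope -/
theorem tele (hn : 0 < n) {r s : ℝ} (hs : 0 < s) (hsr : s < r) (hr1 : r ≤ 1) :
    ∃ (P : (ℕ → HamBar n) →* HamBar n) (κ l : HamBar n) (τ : ℝ) (hτ : 0 < τ) (hτ1 : τ ≤ 1),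
      (∀ g, P (Pi.mulSingle 0 g) = l * sc τ hτ hτ1 g * l⁻¹) ∧
      ∀ b : ℕ → HamBar n, κ * P (fun j => sc s hs (hsr.le.trans hr1) (b j)) * κ⁻¹ =
        P (fun j => Nat.casesOn j 1 fun j => sc r (hs.trans hsr) hr1 (b j)) := by
  obtain ⟨v, hv⟩ := exists_vec hn one_pos
  have hr : 0 < r := hs.trans hsr
  set q := s / r with hqdef
  have hq : 0 < q := by positivity
  have hq1 : q < 1 := by rw [hqdef, div_lt_one hr]; exact hsr
  have hqr : q * r = s := by rw [hqdef]; field_simp
  set τ := q * (1 - q) / 16 with hτdef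
  have hτ : 0 < τ := by
    have : 0 < 1 - q := by linarith
    positivity
  have hτ' : 16 * τ = q * (1 - q) := by rw [hτdef]; ring
  have hτ1 : τ ≤ 1 / 16 := by nlinarith
  have hs1 : s < 1 := hsr.trans_le hr1
  set F : Fam n := geoFam hv hq hq1 (b := 1 / 2) (β := τ) (by norm_num) hτ (by nlinarith)
    (by linarith) with hF
  have hFc : ∀ j, F.c j = (q ^ j * (1 / 2)) • v := fun j => rfl
  have hFt : ∀ j, F.t j = q ^ j * τ := fun j => rfl
  -- the translations
  have hε : 0 < τ * s := by positivity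
  have hε' : τ * s < τ := by nlinarith
  obtain ⟨κ₁, hκ₁⟩ := par hn hv hq hq1 (α := 1 / 2) (α' := (1 + q) / 4) hε hε' (by linarith)
    (by nlinarith) (by linarith)
  obtain ⟨κ₂, hκ₂⟩ := par hn hv hq hq1 (α := (1 + q) / 4) (α' := q / 2) hε hε' (by linarith)
    (by nlinarith) (by linarith)
  have hκ : ∀ j : ℕ, ∀ x ∈ W ((q ^ j * (1 / 2)) • v) (q ^ j * (τ * s)),
      ((κ₂ * κ₁ : HamBar n) : E n ≃ₜ E n) x = x + (q ^ j * (q / 2 - 1 / 2)) • v := by
    intro j x hx
    have h1 := hκ₁ j x hx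
    have h2 : (κ₁ : E n ≃ₜ E n) x ∈ W ((q ^ j * ((1 + q) / 4)) • v) (q ^ j * (τ * s)) := by
      have h3 : nm (x - (q ^ j * (1 / 2)) • v) < q ^ j * (τ * s) := hx
      show nm ((κ₁ : E n ≃ₜ E n) x - (q ^ j * ((1 + q) / 4)) • v) < q ^ j * (τ * s)
      rw [h1]
      have e : x + (q ^ j * ((1 + q) / 4 - 1 / 2)) • v - (q ^ j * ((1 + q) / 4)) • v =
          x - (q ^ j * (1 / 2)) • v := by
        rw [add_sub_assoc, ← sub_smul, sub_eq_add_neg x, ← neg_smul]
        congr 2
        ring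
      rw [e]
      exact h3
    have h4 := hκ₂ j _ h2
    show (κ₂ : E n ≃ₜ E n) ((κ₁ : E n ≃ₜ E n) x) = _
    rw [h4, h1, add_assoc, ← add_smul]
    congr 2
    ring
  obtain ⟨l, hl⟩ := exists_conj (n := n) (c := F.c 0) (F.pos 0)
    (by rw [hFc, hFt, nm_smul, hv, pow_zero, abs_of_pos (by norm_num)]; linarith)
  refine ⟨F.P, κ₂ * κ₁, l, F.t 0, F.pos 0, by rw [hFt, pow_zero]; linarith, fun g => ?_,
    fun b => ?_⟩
  · apply Subtype.ext
    rw [F.P_single, hl g]
  · apply Subtype.ext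
    have hpos : ∀ j : ℕ, 0 < q ^ j * (τ * s) := fun j => by positivity
    refine conj_trans (c := fun j => (q ^ j * (1 / 2)) • v)
      (w := fun j => (q ^ j * (q / 2 - 1 / 2)) • v) (t := fun j => q ^ j * (τ * s)) hpos
      (g := fun j => (b j : E n ≃ₜ E n)) (fun j => (b j).2) ?_ ?_ hκ
    · have h1 := F.P_spec fun j => sc s hs (hsr.le.trans hr1) (b j)
      have e : (fun j => cpy (F.c j) (F.t j) (F.pos j)
          (sc s hs (hsr.le.trans hr1) (b j) : HamBar n)) =
          fun j => cpy ((q ^ j * (1 / 2)) • v) (q ^ j * (τ * s)) (hpos j) (b j) := by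
        funext j
        rw [sc_coe, cpy_cpy]
        simp only [smul_zero, add_zero, hFc, hFt, mul_assoc]
      rw [e] at h1
      refine h1.shrink (fun j => ?_) fun j => cpy_supp (hpos j) (b j).2
      show W ((q ^ j * (1 / 2)) • v) (q ^ j * (τ * s)) ⊆ W (F.c j) (F.t j)
      rw [hFc, hFt]
      exact W_sub (mul_le_mul_of_nonneg_left hε'.le (by positivity))
    · have h1 := F.P_spec fun j => Nat.casesOn j 1 fun j => sc r (hs.trans hsr) hr1 (b j)
      have h2 := h1.tail 1 (fun i hi => by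
        have : i = 0 := by omega
        subst this
        show cpy _ _ _ ((1 : HamBar n) : E n ≃ₜ E n) = 1
        rw [Subgroup.coe_one, cpy_one])
      have ec : ∀ j : ℕ, (q ^ j * (1 / 2)) • v + (q ^ j * (q / 2 - 1 / 2)) • v = F.c (1 + j) := by
        intro j
        rw [hFc, ← add_smul, add_comm 1 j, pow_succ]
        congr 1
        ring
      have et : ∀ j : ℕ, F.t (1 + j) * r = q ^ j * (τ * s) := by
        intro j
        rw [hFt, add_comm 1 j, pow_succ, ← hqr]
        ring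
      have e : (fun j => cpy (F.c (1 + j)) (F.t (1 + j)) (F.pos (1 + j))
          (sc r (hs.trans hsr) hr1 (b j) : HamBar n)) =
          fun j => cpy ((q ^ j * (1 / 2)) • v + (q ^ j * (q / 2 - 1 / 2)) • v)
            (q ^ j * (τ * s)) (hpos j) (b j) := by
        funext j
        rw [sc_coe, cpy_cpy]
        simp only [smul_zero, add_zero, ec, et]
      have h3 : IsProd (fun j => W (F.c (1 + j)) (F.t (1 + j)))
          (fun j => cpy (F.c (1 + j)) (F.t (1 + j)) (F.pos (1 + j))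
          (sc r (hs.trans hsr) hr1 (b j) : HamBar n))
          (F.P fun j => Nat.casesOn j 1 fun j => sc r (hs.trans hsr) hr1 (b j)) := by
        have e2 : (fun j => cpy (F.c (1 + j)) (F.t (1 + j)) (F.pos (1 + j))
            (sc r (hs.trans hsr) hr1 (b j) : HamBar n)) = fun j => (fun j => cpy (F.c j) (F.t j)
              (F.pos j) ((Nat.casesOn j 1 fun j => sc r (hs.trans hsr) hr1 (b j) :
                HamBar n))) (1 + j) := by
          funext j
          have : 1 + j = j + 1 := add_comm 1 j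
          simp only [this]
        rw [e2]
        exact h2
      rw [e] at h3
      refine h3.shrink (fun j => ?_) fun j => cpy_supp (hpos j) (b j).2
      rw [ec]
      refine W_sub ?_
      rw [← et]
      exact mul_le_of_le_one_right (F.pos _).le hr1

/-- **Bounded fragmentation implies bounded commutator length.** -/
theorem frag_comm (hn : 0 < n) {r s : ℝ} (hs : 0 < s) (hsr : s < r) (hr1 : r ≤ 1) {m : ℕ}
    (h : Sh n r ⊆ Prods (Conj (Sh n s)) m) :
    ∃ ρ : ℝ, 0 < ρ ∧ ρ ≤ r ∧ Sh n ρ ⊆ Prods (Comm (HamBar n)) (m + 1) := by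
  obtain ⟨P, κ, l, τ, hτ, hτ1, h1, h2⟩ := tele (n := n) hn hs hsr hr1
  have hr : 0 < r := hs.trans hsr
  refine ⟨τ * r, by positivity, mul_le_of_le_one_left hr.le hτ1, fun φ hφ => ?_⟩
  obtain ⟨g, rfl⟩ := (mem_Sh (by positivity) (mul_le_one₀ hτ1 hr.le hr1)).1 hφ
  have h3 := telescope P κ (sc r hr hr1) (sc s hs (hsr.le.trans hr1)) h2 m (fun g => ?_) g
  · rw [h1] at h3
    have h4 := Prods.conj (fun g _ => Comm.conj g) h3 l⁻¹
    rw [← sc_sc τ r hτ hτ1 hr hr1]
    have e : l⁻¹ * (l * sc τ hτ hτ1 (sc r hr hr1 g) * l⁻¹) * l⁻¹⁻¹ =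
        sc τ hτ hτ1 (sc r hr hr1 g) := by group
    rwa [e] at h4
  · have h4 := h ((mem_Sh hr hr1).2 ⟨g, rfl⟩)
    have h5 : Conj (Sh n s) ⊆
        Conj (((sc (n := n) s hs (hsr.le.trans hr1)).range : Subgroup (HamBar n)) :
          Set (HamBar n)) := by
      apply Conj.mono
      intro x hx
      obtain ⟨g', hg'⟩ := (mem_Sh hs (hsr.le.trans hr1)).1 hx
      exact ⟨g', hg'⟩
    obtain ⟨x, y, b, ⟨g', rfl⟩, he⟩ := split_comm _ m (Prods.mono h5 le_rfl h4)
    exact ⟨x, y, g', he⟩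

end Pool.Agent.J6H85.LR
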