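import Pool.Agent.J6H85.LR.Equiv

/-!
# Two commutators; the normal closures; countable normal generation
-/

set_option autoImplicit false

open Set Filter Topology Function
open Pool.Agent.Y453.HB
open scoped commutatorElement
open Pool.Agent.R773.HN (nm nm_zero MS_le MS_ne MS_normal mid_HamBar Mono)

namespace Pool.Agent.J6H85.LR

/-- a product of `m` commutators becomes a product of two commutators in a group with room -/
theorem two_comm {G : Type*} [Group G] (P : (ℕ → G) →* G) (κ : G) (β : G →* G)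
    (ι : ℕ → (G →* G)) (m : ℕ) (hι : ∀ j < m, ∀ g, β (ι (j + 1) g) = ι j g)
    (hP : ∀ b : ℕ → G, κ * P (fun j => β (b j)) * κ⁻¹ = P (fun j => Nat.casesOn j 1 b))
    (x y : ℕ → G) :
    P (Pi.mulSingle 0 (ι 0 ((List.range m).map fun i => ⁅x i, y i⁆).prod)) ∈
      Prods (Comm G) 2 := by
  let p : ℕ → G := fun i => ((List.range (m - i)).map fun i => ⁅x i, y i⁆).prod
  have hp0 : p 0 = ((List.range m).map fun i => ⁅x i, y i⁆).prod := rfl
  have hp1 : ∀ i, m ≤ i → p i = 1 := by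
    intro i hi
    have : m - i = 0 := by omega
    show ((List.range (m - i)).map fun i => ⁅x i, y i⁆).prod = 1
    rw [this]
    rfl
  have hps : ∀ i, i < m → p i = p (i + 1) * ⁅x (m - i - 1), y (m - i - 1)⁆ := by
    intro i hi
    show ((List.range (m - i)).map fun i => ⁅x i, y i⁆).prod =
      ((List.range (m - (i + 1))).map fun i => ⁅x i, y i⁆).prod * _
    have e1 : m - i = (m - (i + 1)) + 1 := by omega
    have e2 : m - i - 1 = m - (i + 1) := by omega
    rw [e2, e1, List.range_succ, List.map_append, List.prod_append]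
    simp
  let u : ℕ → G := fun j => if j < m then p (j + 1) * y (m - j - 1) * (p (j + 1))⁻¹ else 1
  let v : ℕ → G := fun j => if j < m then p (j + 1) * x (m - j - 1) * (p (j + 1))⁻¹ else 1
  have huv : ∀ j, p (j + 1) * (p j)⁻¹ = ⁅u j, v j⁆ := by
    intro j
    by_cases hj : j < m
    · have eu : u j = p (j + 1) * y (m - j - 1) * (p (j + 1))⁻¹ := if_pos hj
      have ev : v j = p (j + 1) * x (m - j - 1) * (p (j + 1))⁻¹ := if_pos hj
      rw [eu, ev, hps j hj]
      simp only [commutatorElement_def]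
      group
    · have eu : u j = 1 := if_neg hj
      have ev : v j = 1 := if_neg hj
      rw [eu, ev, hp1 j (by omega), hp1 (j + 1) (by omega)]
      simp
  set F := P (fun j => ι j (p j)) with hF
  have h1 := hP fun j => ι (j + 1) (p j)
  have h2 : (fun j => β (ι (j + 1) (p j))) = fun j => ι j (p j) := by
    funext j
    by_cases hj : j < m
    · exact hι j hj _
    · rw [hp1 j (by omega), map_one, map_one, map_one]
  rw [h2] at h1
  set U : ℕ → G := fun j => Nat.casesOn j 1 fun j => ι (j + 1) (u j) with hU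
  set V : ℕ → G := fun j => Nat.casesOn j 1 fun j => ι (j + 1) (v j) with hV
  have h3 : (fun j => ι j (p j)) = Pi.mulSingle 0 (ι 0 (p 0)) * ⁅U, V⁆ *
      (fun j => Nat.casesOn j 1 fun j => ι (j + 1) (p j) : ℕ → G) := by
    funext j
    rw [Pi.mul_apply, Pi.mul_apply]
    cases j with
    | zero =>
      rw [Pi.mulSingle_eq_same]
      have e : (⁅U, V⁆ : ℕ → G) 0 = 1 := by
        show ⁅(1 : G), (1 : G)⁆ = 1
        simp
      rw [e, mul_one]
      exact (mul_one _).symm
    | succ j =>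
      rw [Pi.mulSingle_eq_of_ne (by omega), one_mul]
      have e : (⁅U, V⁆ : ℕ → G) (j + 1) = ι (j + 1) ⁅u j, v j⁆ := by
        rw [map_commutatorElement]
        rfl
      rw [e, ← huv]
      show ι (j + 1) (p (j + 1)) = ι (j + 1) (p (j + 1) * (p j)⁻¹) * ι (j + 1) (p j)
      rw [← map_mul, inv_mul_cancel_right]
  have h4 := congrArg P h3
  rw [map_mul, map_mul, map_commutatorElement, ← h1, ← hF] at h4
  have h5 : P (Pi.mulSingle 0 (ι 0 (p 0))) = ⁅F, κ⁆ * ⁅P V, P U⁆ := by
    have h6 : P (Pi.mulSingle 0 (ι 0 (p 0))) * ⁅P U, P V⁆ = F * (κ * F * κ⁻¹)⁻¹ :=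
      eq_mul_inv_of_mul_eq h4.symm
    have h7 : P (Pi.mulSingle 0 (ι 0 (p 0))) = F * (κ * F * κ⁻¹)⁻¹ * ⁅P U, P V⁆⁻¹ :=
      eq_mul_inv_of_mul_eq h6
    rw [h7, commutatorElement_inv, commutatorElement_def F κ]
    group
  rw [← hp0, h5]
  exact Prods.mul (k := 1) (m := 1) (Prods.single ⟨_, _, rfl⟩) (Prods.single ⟨_, _, rfl⟩)

variable {n : ℕ}

theorem sc_one (g : HamBar n) : sc 1 one_pos le_rfl g = g := by
  apply Subtype.ext
  refine Homeomorph.ext fun x => ?_
  rw [sc_coe, cpy_apply', inv_one, one_smul, one_smul, sub_zero, zero_add]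

theorem padded {G : Type*} [Group G] {a : G} {k : ℕ} (ha : a ∈ Prods (Comm G) k) :
    ∃ x y : ℕ → G, a = ((List.range k).map fun i => ⁅x i, y i⁆).prod := by
  obtain ⟨l, h1, h2, rfl⟩ := ha
  induction k generalizing l with
  | zero =>
    have : l = [] := List.length_eq_zero_iff.1 (by omega)
    subst this
    exact ⟨1, 1, by simp⟩
  | succ m ih =>
    cases l with
    | nil =>
      refine ⟨1, 1, ?_⟩
      have : ∀ k : ℕ, ((List.range k).map fun i => ⁅(1 : ℕ → G) i, (1 : ℕ → G) i⁆).prod = 1 := by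
        intro k
        apply List.prod_eq_one
        intro z hz
        obtain ⟨i, -, rfl⟩ := List.mem_map.1 hz
        simp
      rw [this]
      simp
    | cons a l =>
      obtain ⟨x, y, he⟩ := ih l (by simpa using h1) fun z hz => h2 z (by simp [hz])
      obtain ⟨b, c, rfl⟩ := h2 a (by simp)
      refine ⟨fun i => if i = 0 then b else x (i - 1), fun i => if i = 0 then c else y (i - 1), ?_⟩
      rw [List.prod_cons, he, List.range_succ_eq_map, List.map_cons, List.prod_cons, List.map_map]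
      rfl

theorem CP'_C2 (hn : 0 < n) (h : LocallyBoundedlyPerfect n) : LocallyTwoCommutators n := by
  obtain ⟨ρ, hρ, hρ1, m, hm⟩ := h
  obtain ⟨P, κ, l, τ, hτ, hτ1, h1, h2⟩ := tele (n := n) hn (r := 1) (s := 1 / 2) (by norm_num)
    (by norm_num) le_rfl
  have hq0 : ∀ k : ℕ, (0 : ℝ) < (1 / 2) ^ k := fun k => by positivity
  have hq1 : ∀ k : ℕ, ((1 : ℝ) / 2) ^ k ≤ 1 := fun k => pow_le_one₀ (by norm_num) (by norm_num)
  let ι : ℕ → (HamBar n →* HamBar n) := fun j => sc ((1 / 2) ^ (m - j)) (hq0 _) (hq1 _)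
  have hι : ∀ j < m, ∀ g, sc (1 / 2) (by norm_num) (by norm_num) (ι (j + 1) g) = ι j g := by
    intro j hj g
    have e : (1 : ℝ) / 2 * (1 / 2) ^ (m - (j + 1)) = (1 / 2) ^ (m - j) := by
      have : m - j = (m - (j + 1)) + 1 := by omega
      rw [this, pow_succ]
      ring
    show sc (1 / 2) _ _ (sc ((1 / 2) ^ (m - (j + 1))) _ _ g) = sc ((1 / 2) ^ (m - j)) _ _ g
    rw [sc_sc]
    simp only [e]
  refine ⟨τ * ((1 / 2) ^ m * ρ), by positivity,
    mul_le_one₀ hτ1 (by positivity) (mul_le_one₀ (hq1 m) hρ.le hρ1), fun φ hφ => ?_⟩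
  obtain ⟨g, rfl⟩ := (mem_Sh (by positivity)
    (mul_le_one₀ hτ1 (by positivity) (mul_le_one₀ (hq1 m) hρ.le hρ1))).1 hφ
  obtain ⟨x, y, hxy⟩ := padded (hm ((mem_Sh hρ hρ1).2 ⟨g, rfl⟩))
  have h3 := two_comm P κ (sc (1 / 2) (by norm_num) (by norm_num)) ι m hι (fun b => by
    have h4 := h2 b
    simp only [sc_one] at h4
    exact h4) x y
  rw [← hxy, h1] at h3
  have h4 := Prods.conj (fun g _ => Comm.conj g) h3 l⁻¹
  have e : l⁻¹ * (l * sc τ hτ hτ1 (ι 0 (sc ρ hρ hρ1 g)) * l⁻¹) * l⁻¹⁻¹ =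
      sc (τ * ((1 / 2) ^ m * ρ)) (by positivity)
        (mul_le_one₀ hτ1 (by positivity) (mul_le_one₀ (hq1 m) hρ.le hρ1)) g := by
    have e1 : ι 0 (sc ρ hρ hρ1 g) = sc ((1 / 2) ^ m * ρ) (by positivity)
        (mul_le_one₀ (hq1 m) hρ.le hρ1) g := sc_sc _ _ _ _ _ _ _
    rw [e1, sc_sc]
    group
  rwa [e] at h4

theorem C2_CP' (h : LocallyTwoCommutators n) : LocallyBoundedlyPerfect n := by
  obtain ⟨r, hr, hr1, h⟩ := h
  exact ⟨r, hr, hr1, 2, h⟩

/-! ### the normal closure -/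

theorem Mono_simpleGroup (hn : 0 < n) : ∃ S : Subgroup (HamBar n), S.Normal ∧
    IsSimpleGroup S ∧ ∀ N : Subgroup (HamBar n), N.Normal → N ≠ ⊥ → S ≤ N := by
  obtain ⟨S, h1, h2, h3, -⟩ := Pool.Agent.R773.HN.main_of Pool.Agent.R773.HN.hT
    Pool.Agent.R773.HN.hR hn (HamBar n) mid_HamBar.1 le_rfl
  exact ⟨S, h1, h2, h3⟩

theorem CS_CF (hn : 0 < n) (h : InAllNormalSubgroups n) : SimpleClosure n := by
  obtain ⟨r, hr, hr1, hS⟩ := h
  obtain ⟨S, h1, h2, h3⟩ := Mono_simpleGroup (n := n) hn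
  have hSne : S ≠ ⊥ := by
    rintro rfl
    have := h2.toNontrivial
    exact not_subsingleton _ (inferInstance : Subsingleton (⊥ : Subgroup (HamBar n)))
  have e : Subgroup.normalClosure (Sh n r) = S :=
    le_antisymm (Subgroup.normalClosure_le_normal (hS S h1 hSne))
      (h3 _ Subgroup.normalClosure_normal (normalClosure_Sh_ne hn hr hr1))
  exact ⟨r, hr, hr1, e ▸ h2⟩

theorem CF_CS (hn : 0 < n) (h : SimpleClosure n) : InAllNormalSubgroups n := by
  obtain ⟨r, hr, hr1, hF⟩ := h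
  obtain ⟨S, h1, h2, h3⟩ := Mono_simpleGroup (n := n) hn
  have hSne : S ≠ ⊥ := by
    rintro rfl
    have := h2.toNontrivial
    exact not_subsingleton _ (inferInstance : Subsingleton (⊥ : Subgroup (HamBar n)))
  set M := Subgroup.normalClosure (Sh n r) with hM
  have hSM : S ≤ M := h3 M Subgroup.normalClosure_normal (normalClosure_Sh_ne hn hr hr1)
  refine ⟨r, hr, hr1, fun N hN hne => ?_⟩
  have h4 : (S.subgroupOf M).Normal := inferInstance
  rcases hF.eq_bot_or_eq_top_of_normal _ h4 with h5 | h5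
  · exfalso
    apply hSne
    rw [eq_bot_iff]
    intro x hx
    have h6 : (⟨x, hSM hx⟩ : M) ∈ S.subgroupOf M := Subgroup.mem_subgroupOf.2 hx
    rw [h5, Subgroup.mem_bot] at h6
    rw [Subgroup.mem_bot]
    exact congrArg Subtype.val h6
  · have h6 : M ≤ S := Subgroup.subgroupOf_eq_top.1 h5
    exact fun x hx => h3 N hN hne (h6 (Subgroup.subset_normalClosure hx))

theorem simple_iff (hn : 0 < n) : IsSimpleGroup (HamBar n) ↔ BoundedFragmentation n ∧ Fragmentation n := by
  constructor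
  · intro h
    have h1 : ∀ N : Subgroup (HamBar n), N.Normal → N ≠ ⊥ → N = ⊤ := fun N hN hne =>
      (h.eq_bot_or_eq_top_of_normal N hN).resolve_left hne
    refine ⟨CO_CB hn (CC_CO (CS_CC hn ⟨1, one_pos, le_rfl, fun N hN hne => ?_⟩)),
      fun s hs hs1 => h1 _ Subgroup.normalClosure_normal (normalClosure_Sh_ne hn hs hs1)⟩
    rw [h1 N hN hne]
    exact Set.subset_univ _
  · rintro ⟨hB, hF⟩
    obtain ⟨r, hr, hr1, hS⟩ := CU_CS (CU_of (CB_CB' hB) (CB_CP' hn hB))
    obtain ⟨g, hg, -⟩ := HamBar_nontrivial hn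
    have : Nontrivial (HamBar n) := ⟨g, 1, hg⟩
    refine ⟨fun N hN => ?_⟩
    by_cases hb : N = ⊥
    · exact Or.inl hb
    · right
      rw [eq_top_iff, ← hF r hr hr1]
      exact Subgroup.normalClosure_le_normal (hS N hN hb)

theorem simple_iff_countable (hn : 0 < n) (hF : Fragmentation n) : IsSimpleGroup (HamBar n) ↔
    ∃ A : Set (HamBar n), A.Countable ∧ Subgroup.normalClosure A = ⊤ := by
  constructor
  · intro h
    obtain ⟨g, hg, -⟩ := HamBar_nontrivial hn
    refine ⟨{g}, Set.countable_singleton g,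
      (h.eq_bot_or_eq_top_of_normal _ Subgroup.normalClosure_normal).resolve_left fun hb => hg ?_⟩
    have h1 : g ∈ Subgroup.normalClosure {g} := Subgroup.subset_normalClosure rfl
    rwa [hb, Subgroup.mem_bot] at h1
  · rintro ⟨A, hA, hA1⟩
    refine (simple_iff hn).2 ⟨CO_CB hn (CC_CO ⟨1, one_pos, le_rfl, A, hA, fun s hs hs1 => ?_, ?_⟩),
      hF⟩
    · rw [hF s hs hs1]
      exact Set.subset_univ _
    · rw [hA1]
      exact Set.subset_univ _

end Pool.Agent.J6H85.LR
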